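import Pool.Agent.helper31.EQ.R.DefsF
import Pool.Agent.helper31.EQ.R.Rigid

/-!
# Continuity and conjugation of the functions of the universal form of scheme R
-/

namespace Pool.Agent.helper12.RP

open Set Metric Filter Topology Complex ComplexConjugate
open Pool.Agent.helper31.EQ.Y Pool.Agent.helper31.EQ.R

variable {e κ : ℝ}

theorem Ck_pos (hκ : 0 < κ) : 0 < Ck e κ := by
  unfold Ck
  have h1 : 0 < 2 * Real.sinh (κ / 2) := by
    have := Real.sinh_pos_iff.2 (half_pos hκ)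
    positivity
  have h2 := Real.rpow_pos_of_pos h1 (-e)
  have h3 := Real.cosh_pos (e * κ / 2)
  positivity

theorem mul_slit {C : ℝ} (hC : 0 < C) {F : ℂ} (h : F ∈ slitPlane) : (C : ℂ) * F ∈ slitPlane := by
  rw [mem_slitPlane_iff] at h ⊢
  rw [re_ofReal_mul, im_ofReal_mul]
  rcases h with h | h
  · exact Or.inl (mul_pos hC h)
  · exact Or.inr (mul_ne_zero hC.ne' h)

theorem rho_ne (hκ : 0 < κ) {F : ℂ} (h : F ∈ slitPlane) : rho e κ F ≠ 0 := by
  unfold rho
  rw [cpow_def_of_ne_zero (slitPlane_ne_zero (mul_slit (Ck_pos hκ) h))]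
  exact exp_ne_zero _

theorem aF_ne (hκ : 0 < κ) {C g : ℂ} (h : g ∈ slitPlane) : aF e κ C g ≠ 0 := by
  unfold aF
  rw [cpow_def_of_ne_zero (slitPlane_ne_zero h)]
  have h1 : 0 < Ck e κ ^ (1 / e) := Real.rpow_pos_of_pos (Ck_pos hκ) _
  exact mul_ne_zero (mul_ne_zero (ofReal_ne_zero.2 h1.ne') (exp_ne_zero _)) (exp_ne_zero _)

section cont

variable {X : Type*} [TopologicalSpace X] {q : X}

theorem cont_cpow {g : X → ℂ} (hg : ContinuousAt g q) (h : g q ∈ slitPlane) (c : ℂ) :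
    ContinuousAt (fun x => g x ^ c) q := by
  exact hg.cpow continuousAt_const h

theorem cont_exp {g : X → ℂ} (hg : ContinuousAt g q) : ContinuousAt (fun x => exp (g x)) q :=
  (Complex.continuous_exp.continuousAt).comp hg

theorem cont_fF {C g : X → ℂ} (hC : ContinuousAt C q) (hg : ContinuousAt g q) :
    ContinuousAt (fun x => fF (C x) (g x)) q := by
  unfold fF
  exact continuousAt_const.sub ((cont_exp hC.neg).mul hg)

theorem cont_aF {C g : X → ℂ} (hC : ContinuousAt C q) (hg : ContinuousAt g q)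
    (h : g q ∈ slitPlane) : ContinuousAt (fun x => aF e κ (C x) (g x)) q := by
  unfold aF
  exact (continuousAt_const.mul (cont_exp (hC.div_const _).neg)).mul (cont_cpow hg h _)

theorem cont_rho (hκ : 0 < κ) {F : X → ℂ} (hF : ContinuousAt F q) (h : F q ∈ slitPlane) :
    ContinuousAt (fun x => rho e κ (F x)) q := by
  unfold rho
  exact cont_cpow (continuousAt_const.mul hF) (mul_slit (Ck_pos hκ) h) _

theorem cont_T1 {T ρ : X → ℂ} (hT : ContinuousAt T q) (hρ : ContinuousAt ρ q)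
    (h : 1 - ρ q ^ 2 * (1 - T q ^ 2) ∈ slitPlane) : ContinuousAt (fun x => T1 (T x) (ρ x)) q := by
  unfold T1
  have h1 : ContinuousAt (fun x => 1 - ρ x ^ 2 * (1 - T x ^ 2)) q :=
    continuousAt_const.sub ((hρ.pow 2).mul (continuousAt_const.sub (hT.pow 2)))
  exact (hρ.mul (continuousAt_const.sub (hT.pow 2))).add (hT.mul (cont_cpow h1 h _))

theorem cont_Qk {τ : X → ℂ} (hτ : ContinuousAt τ q) : ContinuousAt (fun x => Qk κ (τ x)) q := by
  unfold Qk
  exact continuousAt_const.add (continuousAt_const.mul hτ)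

theorem Qk_slit' (hκ : 0 < κ) {τ : ℂ} (h : 0 < τ.re) : Qk κ τ ∈ slitPlane := by
  rw [mem_slitPlane_iff]
  exact Or.inl (lt_of_lt_of_le (Real.cosh_pos κ) (Qk_re hκ h.le))

theorem tanh_cont (hκ : 0 < κ) {z : ℂ} (h : |z.im| < Real.pi / (2 * κ)) :
    ContinuousAt (fun z : ℂ => tanh (κ * z)) z := by
  have h1 : cosh (κ * z) ≠ 0 := by
    intro h0
    have := re_cosh_pos hκ h
    rw [h0] at this
    simp at this
  have h2 : ContinuousAt (fun z : ℂ => sinh (κ * z) / cosh (κ * z)) z :=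
    ContinuousAt.div (by fun_prop) (by fun_prop) h1
  refine h2.congr (Eventually.of_forall fun z => ?_)
  exact (tanh_eq_sinh_div_cosh _).symm

theorem cont_rad0F (hκ : 0 < κ) {p C g : X → ℂ} (hp : ContinuousAt p q) (hC : ContinuousAt C q)
    (hg : ContinuousAt g q) (hs : |(p q).im| < Real.pi / (2 * κ)) (h1 : g q ∈ slitPlane)
    (h2 : fF (C q) (g q) ∈ slitPlane)
    (h3 : 1 - rho e κ (fF (C q) (g q)) ^ 2 * (1 - tanh (κ * p q) ^ 2) ∈ slitPlane) :
    ContinuousAt (fun x => rad0F e κ (p x) (C x) (g x)) q := by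
  unfold rad0F
  have ha := cont_aF (e := e) (κ := κ) hC hg h1
  have han := aF_ne (e := e) hκ (C := C q) h1
  have ht : ContinuousAt (fun x => tanh (κ * p x)) q := ContinuousAt.comp (f := p) (tanh_cont hκ hs) hp
  have hr : ContinuousAt (fun x => rho e κ (fF (C x) (g x))) q :=
    cont_rho hκ (cont_fF hC hg) h2
  exact continuousAt_const.add (((continuousAt_const.div ha han).add
    (continuousAt_const.mul (cont_T1 ht hr h3))).div ha han)

theorem cont_radH (hκ : 0 < κ) {p C g : X → ℂ} (hp : ContinuousAt p q) (hC : ContinuousAt C q)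
    (hg : ContinuousAt g q) (hs : |(p q).im| < Real.pi / (2 * κ))
    (h2 : fF (C q) (g q) ∈ slitPlane)
    (h3 : 1 - rho e κ (fF (C q) (g q)) ^ 2 * (1 - tanh (κ * p q) ^ 2) ∈ slitPlane) :
    ContinuousAt (fun x => radH e κ (p x) (fF (C x) (g x))) q := by
  unfold radH
  have ht : ContinuousAt (fun x => tanh (κ * p x)) q := ContinuousAt.comp (f := p) (tanh_cont hκ hs) hp
  have hr : ContinuousAt (fun x => rho e κ (fF (C x) (g x))) q :=
    cont_rho hκ (cont_fF hC hg) h2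
  exact (continuousAt_const.sub ((continuousAt_const.mul hr).mul (cont_T1 ht hr h3))).add
    (hr.pow 2)

theorem cont_step0F (hκ : 0 < κ) {p C g : X → ℂ} (hp : ContinuousAt p q) (hC : ContinuousAt C q)
    (hg : ContinuousAt g q) (hs : |(p q).im| < Real.pi / (2 * κ)) (h1 : g q ∈ slitPlane)
    (h2 : fF (C q) (g q) ∈ slitPlane)
    (h3 : 1 - rho e κ (fF (C q) (g q)) ^ 2 * (1 - tanh (κ * p q) ^ 2) ∈ slitPlane)
    (h4 : rad0F e κ (p q) (C q) (g q) ∈ slitPlane) :
    ContinuousAt (fun x => step0F e κ (p x) (C x) (g x)) q := by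
  unfold step0F
  exact ((cont_cpow (cont_rad0F hκ hp hC hg hs h1 h2 h3) h4 _).sub continuousAt_const).div_const _

theorem cont_radF (hκ : 0 < κ) {τ C g : X → ℂ} (hτ : ContinuousAt τ q) (hC : ContinuousAt C q)
    (hg : ContinuousAt g q) (h0 : 0 < (τ q).re) (h1 : g q ∈ slitPlane)
    (h2 : fF (C q) (g q) ∈ slitPlane) :
    ContinuousAt (fun x => radF e κ (τ x) (C x) (g x)) q := by
  unfold radF
  have ha := cont_aF (e := e) (κ := κ) hC hg h1
  have han := aF_ne (e := e) hκ (C := C q) h1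
  have hr : ContinuousAt (fun x => rho e κ (fF (C x) (g x))) q :=
    cont_rho hκ (cont_fF hC hg) h2
  have hrn := rho_ne (e := e) hκ h2
  have hQ := cont_Qk (κ := κ) hτ
  have hQn := slitPlane_ne_zero (Qk_slit' hκ h0)
  exact continuousAt_const.add ((((continuousAt_const.div ha han).add hr).add
    ((continuousAt_const.sub ((hQ.pow 2).inv₀ (pow_ne_zero 2 hQn))).div hr hrn)).div ha han)

theorem cont_stepF (hκ : 0 < κ) {τ C g : X → ℂ} (hτ : ContinuousAt τ q) (hC : ContinuousAt C q)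
    (hg : ContinuousAt g q) (h0 : 0 < (τ q).re) (h1 : g q ∈ slitPlane)
    (h2 : fF (C q) (g q) ∈ slitPlane) (h3 : radF e κ (τ q) (C q) (g q) ∈ slitPlane) :
    ContinuousAt (fun x => stepF e κ (τ x) (C x) (g x)) q := by
  unfold stepF
  exact ((cont_cpow (cont_radF hκ hτ hC hg h0 h1 h2) h3 _).sub continuousAt_const).div_const _

theorem cont_lawF (hκ : 0 < κ) {C v r τ F : X → ℂ} (hC : ContinuousAt C q)
    (hv : ContinuousAt v q) (hr : ContinuousAt r q) (hτ : ContinuousAt τ q)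
    (hF : ContinuousAt F q) (hrn : r q ≠ 0) (h0 : 0 < (τ q).re) :
    ContinuousAt (fun x => lawF e κ (C x) (v x) (r x) (τ x) (F x)) q := by
  unfold lawF
  exact (hv.sub (((cont_exp hC).mul (cont_cpow (cont_Qk hτ) (Qk_slit' hκ h0) _)).mul hF)).div hr hrn

end cont

section cj

theorem slit_conj {z : ℂ} (h : z ∈ slitPlane) : conj z ∈ slitPlane := by
  rw [mem_slitPlane_iff] at h ⊢
  rw [conj_re, conj_im]
  rcases h with h | h
  · exact Or.inl h
  · exact Or.inr (neg_ne_zero.2 h)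

theorem conj_cpow' {z : ℂ} (h : z ∈ slitPlane) (c : ℝ) :
    conj z ^ (c : ℂ) = conj (z ^ (c : ℂ)) := by
  have := Complex.cpow_conj (x := z) (n := (c : ℂ)) (slitPlane_arg_ne_pi h)
  rw [conj_ofReal] at this
  have h2 := Complex.conj_cpow (x := z) (n := (c : ℂ)) (slitPlane_arg_ne_pi h)
  rw [conj_ofReal] at h2
  exact h2

theorem conj_fF (C g : ℂ) : fF (conj C) (conj g) = conj (fF C g) := by
  unfold fF
  rw [map_sub, map_one, map_mul, ← exp_conj, map_neg]

theorem conj_aF {C g : ℂ} (h : g ∈ slitPlane) :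
    aF e κ (conj C) (conj g) = conj (aF e κ C g) := by
  unfold aF
  rw [map_mul, map_mul, conj_ofReal, ← exp_conj, map_neg, map_div₀, conj_ofReal, conj_cpow' h]

theorem conj_rho (hκ : 0 < κ) {F : ℂ} (h : F ∈ slitPlane) :
    rho e κ (conj F) = conj (rho e κ F) := by
  unfold rho
  have h1 := mul_slit (Ck_pos (e := e) hκ) h
  have h2 : (Ck e κ : ℂ) * conj F = conj ((Ck e κ : ℂ) * F) := by
    rw [map_mul, conj_ofReal]
  have h3 : -((1 / e : ℝ) : ℂ) = ((-(1 / e) : ℝ) : ℂ) := by push_cast; rfl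
  rw [h2, h3, conj_cpow' h1]

theorem conj_T1 {T ρ : ℂ} (h : 1 - ρ ^ 2 * (1 - T ^ 2) ∈ slitPlane) :
    T1 (conj T) (conj ρ) = conj (T1 T ρ) := by
  unfold T1
  have h2 : 1 - conj ρ ^ 2 * (1 - conj T ^ 2) = conj (1 - ρ ^ 2 * (1 - T ^ 2)) := by
    simp only [map_sub, map_one, map_mul, map_pow]
  rw [h2, conj_cpow' h]
  simp only [map_add, map_sub, map_one, map_mul, map_pow]

theorem conj_Qk (τ : ℂ) : Qk κ (conj τ) = conj (Qk κ τ) := by
  unfold Qk
  simp only [map_add, map_mul, conj_ofReal]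

theorem conj_tanh (p : ℂ) : tanh (κ * conj p) = conj (tanh (κ * p)) := by
  rw [← tanh_conj, map_mul, conj_ofReal]

theorem conj_rad0F (hκ : 0 < κ) {p C g : ℂ} (h1 : g ∈ slitPlane) (h2 : fF C g ∈ slitPlane)
    (h3 : 1 - rho e κ (fF C g) ^ 2 * (1 - tanh (κ * p) ^ 2) ∈ slitPlane) :
    rad0F e κ (conj p) (conj C) (conj g) = conj (rad0F e κ p C g) := by
  unfold rad0F
  rw [conj_aF h1, conj_fF, conj_rho hκ h2, conj_tanh, conj_T1 h3]
  simp only [map_add, map_one, map_mul, map_div₀, map_ofNat]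

theorem conj_radH (hκ : 0 < κ) {p F : ℂ} (h2 : F ∈ slitPlane)
    (h3 : 1 - rho e κ F ^ 2 * (1 - tanh (κ * p) ^ 2) ∈ slitPlane) :
    radH e κ (conj p) (conj F) = conj (radH e κ p F) := by
  unfold radH
  rw [conj_rho hκ h2, conj_tanh, conj_T1 h3]
  simp only [map_add, map_one, map_mul, map_sub, map_pow, map_ofNat]

theorem conj_step0F (hκ : 0 < κ) {p C g : ℂ} (h1 : g ∈ slitPlane) (h2 : fF C g ∈ slitPlane)
    (h3 : 1 - rho e κ (fF C g) ^ 2 * (1 - tanh (κ * p) ^ 2) ∈ slitPlane)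
    (h4 : rad0F e κ p C g ∈ slitPlane) :
    step0F e κ (conj p) (conj C) (conj g) = conj (step0F e κ p C g) := by
  unfold step0F
  rw [conj_rad0F hκ h1 h2 h3, conj_cpow' h4]
  simp only [map_sub, map_div₀, conj_ofReal]

theorem conj_radF (hκ : 0 < κ) {τ C g : ℂ} (h1 : g ∈ slitPlane) (h2 : fF C g ∈ slitPlane) :
    radF e κ (conj τ) (conj C) (conj g) = conj (radF e κ τ C g) := by
  unfold radF
  rw [conj_aF h1, conj_fF, conj_rho hκ h2, conj_Qk]
  simp only [map_add, map_one, map_div₀, map_sub, map_inv₀, map_pow]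

theorem conj_stepF (hκ : 0 < κ) {τ C g : ℂ} (h1 : g ∈ slitPlane) (h2 : fF C g ∈ slitPlane)
    (h4 : radF e κ τ C g ∈ slitPlane) :
    stepF e κ (conj τ) (conj C) (conj g) = conj (stepF e κ τ C g) := by
  unfold stepF
  rw [conj_radF hκ h1 h2, conj_cpow' h4]
  simp only [map_sub, map_div₀, conj_ofReal]

theorem conj_lawF (hκ : 0 < κ) {C v r τ F : ℂ} (h : 0 < τ.re) :
    lawF e κ (conj C) (conj v) (conj r) (conj τ) (conj F) = conj (lawF e κ C v r τ F) := by
  unfold lawF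
  have h1 := conj_cpow' (Qk_slit' hκ h) (-e)
  have h3 : -(e : ℂ) = ((-e : ℝ) : ℂ) := by push_cast; rfl
  rw [h3, conj_Qk, h1, exp_conj]
  simp only [map_sub, map_div₀, map_mul]

end cj

end Pool.Agent.helper12.RP
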