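import Pool.Agent.helper31.EQ.R.DataF
import Pool.Agent.helper12.RP.Cont

/-!
# Assembly of `RDataF` from pointwise conditions at the start and a far field record

The nodes `1, 2, 3` have centres and radii which are functions of the start `p` only
(`1 - f = exp (-C i p) (1 - X i p * x)`); the nodes `n + 4` belong to the far field record (index `n`
there is the index `n + 2` of `RDataF`).
-/

namespace Pool.Agent.helper12.RP

open Set Metric Filter Topology Complex ComplexConjugate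
open Pool.Agent.helper31.EQ.Y Pool.Agent.helper31.EQ.R

/-- Far field: node `n + 4`, the position `τ` is that of the link from the node `n + 3` to the node
`n + 4`. -/
structure FarF (e κ θ : ℝ) where
  DF : Set ℂ
  isOpen_DF : IsOpen DF
  conj_DF : ∀ p ∈ DF, conj p ∈ DF
  Ω : ℂ → ℕ → Set ℂ
  /-- the entry condition is open in `(p, τ)` -/
  isOpen_entry : IsOpen {q : ℂ × ℂ | q.1 ∈ DF ∧ q.2 ∈ Ω q.1 0}
  conj_entry : ∀ p ∈ DF, ∀ τ ∈ Ω p 0, conj τ ∈ Ω (conj p) 0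
  Ω_re : ∀ p ∈ DF, ∀ n, ∀ τ ∈ Ω p n, 0 < τ.re
  C : ℂ → ℕ → ℂ → ℂ
  v : ℂ → ℕ → ℂ → ℂ
  r : ℂ → ℕ → ℂ → ℂ
  C_diff : ∀ p ∈ DF, ∀ n, ∀ τ ∈ Ω p n, DifferentiableAt ℂ (fun q : ℂ × ℂ => C q.1 n q.2) (p, τ)
  v_diff : ∀ p ∈ DF, ∀ n, ∀ τ ∈ Ω p n, DifferentiableAt ℂ (fun q : ℂ × ℂ => v q.1 n q.2) (p, τ)
  r_diff : ∀ p ∈ DF, ∀ n, ∀ τ ∈ Ω p n, DifferentiableAt ℂ (fun q : ℂ × ℂ => r q.1 n q.2) (p, τ)
  C_conj : ∀ p ∈ DF, ∀ τ ∈ Ω p 0, C (conj p) 0 (conj τ) = conj (C p 0 τ)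
  v_conj : ∀ p ∈ DF, ∀ τ ∈ Ω p 0, v (conj p) 0 (conj τ) = conj (v p 0 τ)
  r_conj : ∀ p ∈ DF, ∀ τ ∈ Ω p 0, r (conj p) 0 (conj τ) = conj (r p 0 τ)
  r_ne : ∀ p ∈ DF, ∀ n, ∀ τ ∈ Ω p n, r p n τ ≠ 0
  C_real : ∀ p : ℝ, (p : ℂ) ∈ DF → ∀ n, ∀ τ : ℝ, (τ : ℂ) ∈ Ω p n → (C p n τ).im = 0
  v_real : ∀ p : ℝ, (p : ℂ) ∈ DF → ∀ n, ∀ τ : ℝ, (τ : ℂ) ∈ Ω p n → (v p n τ).im = 0
  r_real : ∀ p : ℝ, (p : ℂ) ∈ DF → ∀ n, ∀ τ : ℝ, (τ : ℂ) ∈ Ω p n → (r p n τ).im = 0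
  F_slit : ∀ p ∈ DF, ∀ n, ∀ τ ∈ Ω p n, ∀ x : ℂ, ‖x‖ ≤ 1 →
    fF (C p n τ) (v p n τ - r p n τ * x) ∈ slitPlane
  g_slit : ∀ p ∈ DF, ∀ n, ∀ τ ∈ Ω p n, ∀ x : ℂ, ‖x‖ ≤ 1 → v p n τ - r p n τ * x ∈ slitPlane
  rad_slit : ∀ p ∈ DF, ∀ n, ∀ τ ∈ Ω p n, ∀ x : ℂ, ‖x‖ ≤ 1 →
    radF e κ τ (C p n τ) (v p n τ - r p n τ * x) ∈ slitPlane
  inv : ∀ p ∈ DF, ∀ n, ∀ τ ∈ Ω p n, ∀ x : ℂ, ‖x‖ ≤ 1 →
    stepF e κ τ (C p n τ) (v p n τ - r p n τ * x) ∈ Ω p (n + 1)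
  close : ∀ p ∈ DF, ∀ n, ∀ τ ∈ Ω p n, ∀ x x' : ℂ, ‖x‖ ≤ 1 → ‖x'‖ ≤ 1 →
    ∀ τ', τ' = stepF e κ τ (C p n τ) (v p n τ - r p n τ * x) →
    ‖lawF e κ (C p n τ) (v p n τ) (r p n τ) τ'
      (fF (C p (n + 1) τ') (v p (n + 1) τ' - r p (n + 1) τ' * x'))‖ ≤ θ
  /-- real positions converge to `1` -/
  tend : ∀ p : ℝ, (p : ℂ) ∈ DF → ∀ x : ℕ → ℂ, (∀ n, ‖x n‖ ≤ 1) → (∀ n, (x n).im = 0) →
    ∀ t : ℕ → ℂ, t 0 ∈ Ω p 0 → (t 0).im = 0 →
    (∀ n, t (n + 1) = stepF e κ (t n) (C p n (t n)) (v p n (t n) - r p n (t n) * x n)) →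
    Tendsto t atTop (𝓝 1)

/-- Centres and radii of the nodes `1, 2, 3`. -/
structure Near (DF : Set ℂ) where
  C0 : ℂ → ℂ
  X0 : ℂ → ℂ
  C1 : ℂ → ℂ
  X1 : ℂ → ℂ
  C2 : ℂ → ℂ
  X2 : ℂ → ℂ
  C0_diff : DifferentiableOn ℂ C0 DF
  X0_diff : DifferentiableOn ℂ X0 DF
  C1_diff : DifferentiableOn ℂ C1 DF
  X1_diff : DifferentiableOn ℂ X1 DF
  C2_diff : DifferentiableOn ℂ C2 DF
  X2_diff : DifferentiableOn ℂ X2 DF
  /-- preconditioners -/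
  M0 : ℂ → ℂ
  M1 : ℂ → ℂ
  M2 : ℂ → ℂ
  M0_diff : DifferentiableOn ℂ M0 DF
  M1_diff : DifferentiableOn ℂ M1 DF
  M2_diff : DifferentiableOn ℂ M2 DF
  C0_conj : ∀ p ∈ DF, C0 (conj p) = conj (C0 p)
  X0_conj : ∀ p ∈ DF, X0 (conj p) = conj (X0 p)
  C1_conj : ∀ p ∈ DF, C1 (conj p) = conj (C1 p)
  X1_conj : ∀ p ∈ DF, X1 (conj p) = conj (X1 p)
  C2_conj : ∀ p ∈ DF, C2 (conj p) = conj (C2 p)
  X2_conj : ∀ p ∈ DF, X2 (conj p) = conj (X2 p)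
  M0_conj : ∀ p ∈ DF, M0 (conj p) = conj (M0 p)
  M1_conj : ∀ p ∈ DF, M1 (conj p) = conj (M1 p)
  M2_conj : ∀ p ∈ DF, M2 (conj p) = conj (M2 p)

variable {e κ θ : ℝ}

/-- the first link -/
noncomputable def Near.t1 {DF : Set ℂ} (N : Near DF) (e κ : ℝ) (p x0 : ℂ) : ℂ :=
  step0F e κ p (N.C0 p) (1 - N.X0 p * x0)

/-- the second link -/
noncomputable def Near.t2 {DF : Set ℂ} (N : Near DF) (e κ : ℝ) (p x0 x1 : ℂ) : ℂ :=
  stepF e κ (N.t1 e κ p x0) (N.C1 p) (1 - N.X1 p * x1)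

/-- the third link -/
noncomputable def Near.t3 {DF : Set ℂ} (N : Near DF) (e κ : ℝ) (p x0 x1 x2 : ℂ) : ℂ :=
  stepF e κ (N.t2 e κ p x0 x1) (N.C2 p) (1 - N.X2 p * x2)

/-- **The pointwise conditions** at the start `p` for `x = (x0, x1, x2, x3)`. -/
structure NearPt (far : FarF e κ θ) (N : Near far.DF) (p : ℂ) (x : ℂ × ℂ × ℂ × ℂ) : Prop where
  mem : p ∈ far.DF
  strip : |p.im| < Real.pi / (2 * κ)
  X0_ne : N.X0 p ≠ 0
  X1_ne : N.X1 p ≠ 0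
  X2_ne : N.X2 p ≠ 0
  M0_ne : N.M0 p ≠ 0
  M1_ne : N.M1 p ≠ 0
  M2_ne : N.M2 p ≠ 0
  g0 : 1 - N.X0 p * x.1 ∈ slitPlane
  g1 : 1 - N.X1 p * x.2.1 ∈ slitPlane
  g2 : 1 - N.X2 p * x.2.2.1 ∈ slitPlane
  F0 : fF (N.C0 p) (1 - N.X0 p * x.1) ∈ slitPlane
  F1 : fF (N.C1 p) (1 - N.X1 p * x.2.1) ∈ slitPlane
  F2 : fF (N.C2 p) (1 - N.X2 p * x.2.2.1) ∈ slitPlane
  w0 : 1 - rho e κ (fF (N.C0 p) (1 - N.X0 p * x.1)) ^ 2 * (1 - tanh (κ * p) ^ 2) ∈ slitPlane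
  rad0 : rad0F e κ p (N.C0 p) (1 - N.X0 p * x.1) ∈ slitPlane
  rH : radH e κ p (fF (N.C0 p) (1 - N.X0 p * x.1)) ∈ slitPlane
  t1_re : 0 < (N.t1 e κ p x.1).re
  rad1 : radF e κ (N.t1 e κ p x.1) (N.C1 p) (1 - N.X1 p * x.2.1) ∈ slitPlane
  t2_re : 0 < (N.t2 e κ p x.1 x.2.1).re
  rad2 : radF e κ (N.t2 e κ p x.1 x.2.1) (N.C2 p) (1 - N.X2 p * x.2.2.1) ∈ slitPlane
  t3_mem : N.t3 e κ p x.1 x.2.1 x.2.2.1 ∈ far.Ω p 0
  close0 : ‖x.1 - N.M0 p * (x.1 - lawF e κ (N.C0 p) 1 (N.X0 p) (N.t1 e κ p x.1)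
    (fF (N.C1 p) (1 - N.X1 p * x.2.1)))‖ < θ
  close1 : ‖x.2.1 - N.M1 p * (x.2.1 - lawF e κ (N.C1 p) 1 (N.X1 p) (N.t2 e κ p x.1 x.2.1)
    (fF (N.C2 p) (1 - N.X2 p * x.2.2.1)))‖ < θ
  close2 : ‖x.2.2.1 - N.M2 p * (x.2.2.1 - lawF e κ (N.C2 p) 1 (N.X2 p)
    (N.t3 e κ p x.1 x.2.1 x.2.2.1)
    (fF (far.C p 0 (N.t3 e κ p x.1 x.2.1 x.2.2.1))
      (far.v p 0 (N.t3 e κ p x.1 x.2.1 x.2.2.1) -
        far.r p 0 (N.t3 e κ p x.1 x.2.1 x.2.2.1) * x.2.2.2)))‖ < θ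

/-- The condition `|ρ| < 1` (only used for real starts). -/
def RhoPt (far : FarF e κ θ) (N : Near far.DF) (p : ℂ) (x : ℂ × ℂ × ℂ × ℂ) : Prop :=
  ‖rho e κ (fF (N.C0 p) (1 - N.X0 p * x.1))‖ < 1

private theorem ev_slit {X : Type*} [TopologicalSpace X] {q : X} {f : X → ℂ}
    (hf : ContinuousAt f q) (h : f q ∈ slitPlane) : ∀ᶠ x in 𝓝 q, f x ∈ slitPlane :=
  hf.eventually (isOpen_slitPlane.mem_nhds h)

private theorem ev_re {X : Type*} [TopologicalSpace X] {q : X} {f : X → ℂ}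
    (hf : ContinuousAt f q) (h : 0 < (f q).re) : ∀ᶠ x in 𝓝 q, 0 < (f x).re := by
  have h1 : ContinuousAt (fun x => (f x).re) q := (Complex.continuous_re.continuousAt).comp hf
  exact h1.eventually (isOpen_Ioi.mem_nhds h)

private theorem ev_lt {X : Type*} [TopologicalSpace X] {q : X} {f : X → ℂ} {t : ℝ}
    (hf : ContinuousAt f q) (h : ‖f q‖ < t) : ∀ᶠ x in 𝓝 q, ‖f x‖ < t :=
  hf.norm.eventually (isOpen_Iio.mem_nhds h)

private theorem comp_cont {DF : Set ℂ} (hDF : IsOpen DF) {f : ℂ → ℂ}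
    (hf : DifferentiableOn ℂ f DF) {p : ℂ} (hp : p ∈ DF) {x : ℂ × ℂ × ℂ × ℂ} :
    ContinuousAt (fun q : ℂ × (ℂ × ℂ × ℂ × ℂ) => f q.1) (p, x) :=
  ContinuousAt.comp (f := fun q : ℂ × (ℂ × ℂ × ℂ × ℂ) => q.1) (g := f)
    ((hf p hp).differentiableAt (hDF.mem_nhds hp)).continuousAt continuousAt_fst

/-- **Openness.** -/
theorem nearPt_open (hκ : 0 < κ) {far : FarF e κ θ} {N : Near far.DF} {p : ℂ}
    {x : ℂ × ℂ × ℂ × ℂ} (h : NearPt far N p x) :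
    ∀ᶠ q : ℂ × (ℂ × ℂ × ℂ × ℂ) in 𝓝 (p, x), NearPt far N q.1 q.2 := by
  have hO := far.isOpen_DF
  have cp : ContinuousAt (fun q : ℂ × (ℂ × ℂ × ℂ × ℂ) => q.1) (p, x) := continuousAt_fst
  have cC0 := comp_cont hO N.C0_diff h.mem (x := x)
  have cX0 := comp_cont hO N.X0_diff h.mem (x := x)
  have cC1 := comp_cont hO N.C1_diff h.mem (x := x)
  have cX1 := comp_cont hO N.X1_diff h.mem (x := x)
  have cC2 := comp_cont hO N.C2_diff h.mem (x := x)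
  have cX2 := comp_cont hO N.X2_diff h.mem (x := x)
  have cM0 := comp_cont hO N.M0_diff h.mem (x := x)
  have cM1 := comp_cont hO N.M1_diff h.mem (x := x)
  have cM2 := comp_cont hO N.M2_diff h.mem (x := x)
  have cx0 : ContinuousAt (fun q : ℂ × (ℂ × ℂ × ℂ × ℂ) => q.2.1) (p, x) := by fun_prop
  have cx1 : ContinuousAt (fun q : ℂ × (ℂ × ℂ × ℂ × ℂ) => q.2.2.1) (p, x) := by fun_prop
  have cx2 : ContinuousAt (fun q : ℂ × (ℂ × ℂ × ℂ × ℂ) => q.2.2.2.1) (p, x) := by fun_prop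
  have cx3 : ContinuousAt (fun q : ℂ × (ℂ × ℂ × ℂ × ℂ) => q.2.2.2.2) (p, x) := by fun_prop
  have cg0 : ContinuousAt (fun q : ℂ × (ℂ × ℂ × ℂ × ℂ) => 1 - N.X0 q.1 * q.2.1) (p, x) :=
    continuousAt_const.sub (cX0.mul cx0)
  have cg1 : ContinuousAt (fun q : ℂ × (ℂ × ℂ × ℂ × ℂ) => 1 - N.X1 q.1 * q.2.2.1) (p, x) :=
    continuousAt_const.sub (cX1.mul cx1)
  have cg2 : ContinuousAt (fun q : ℂ × (ℂ × ℂ × ℂ × ℂ) => 1 - N.X2 q.1 * q.2.2.2.1) (p, x) :=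
    continuousAt_const.sub (cX2.mul cx2)
  have cF0 := cont_fF cC0 cg0
  have cF1 := cont_fF cC1 cg1
  have cF2 := cont_fF cC2 cg2
  have crho : ContinuousAt (fun q : ℂ × (ℂ × ℂ × ℂ × ℂ) =>
      rho e κ (fF (N.C0 q.1) (1 - N.X0 q.1 * q.2.1))) (p, x) := cont_rho hκ cF0 h.F0
  have cth : ContinuousAt (fun q : ℂ × (ℂ × ℂ × ℂ × ℂ) => tanh (κ * q.1)) (p, x) :=
    ContinuousAt.comp (f := fun q : ℂ × (ℂ × ℂ × ℂ × ℂ) => q.1) (tanh_cont hκ h.strip) cp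
  have cw0 : ContinuousAt (fun q : ℂ × (ℂ × ℂ × ℂ × ℂ) =>
      1 - rho e κ (fF (N.C0 q.1) (1 - N.X0 q.1 * q.2.1)) ^ 2 * (1 - tanh (κ * q.1) ^ 2)) (p, x) :=
    continuousAt_const.sub ((crho.pow 2).mul (continuousAt_const.sub (cth.pow 2)))
  have crad0 := cont_rad0F (e := e) hκ cp cC0 cg0 h.strip h.g0 h.F0 h.w0
  have crH := cont_radH (e := e) hκ cp cC0 cg0 h.strip h.F0 h.w0
  have ct1 : ContinuousAt (fun q : ℂ × (ℂ × ℂ × ℂ × ℂ) => N.t1 e κ q.1 q.2.1) (p, x) :=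
    cont_step0F hκ cp cC0 cg0 h.strip h.g0 h.F0 h.w0 h.rad0
  have crad1 := cont_radF (e := e) hκ ct1 cC1 cg1 h.t1_re h.g1 h.F1
  have ct2 : ContinuousAt (fun q : ℂ × (ℂ × ℂ × ℂ × ℂ) => N.t2 e κ q.1 q.2.1 q.2.2.1) (p, x) :=
    cont_stepF hκ ct1 cC1 cg1 h.t1_re h.g1 h.F1 h.rad1
  have crad2 := cont_radF (e := e) hκ ct2 cC2 cg2 h.t2_re h.g2 h.F2
  have ct3 : ContinuousAt (fun q : ℂ × (ℂ × ℂ × ℂ × ℂ) =>
      N.t3 e κ q.1 q.2.1 q.2.2.1 q.2.2.2.1) (p, x) :=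
    cont_stepF hκ ct2 cC2 cg2 h.t2_re h.g2 h.F2 h.rad2
  have cpair : ContinuousAt (fun q : ℂ × (ℂ × ℂ × ℂ × ℂ) =>
      ((q.1, N.t3 e κ q.1 q.2.1 q.2.2.1 q.2.2.2.1) : ℂ × ℂ)) (p, x) := cp.prodMk ct3
  have cC3 : ContinuousAt (fun q : ℂ × (ℂ × ℂ × ℂ × ℂ) =>
      far.C q.1 0 (N.t3 e κ q.1 q.2.1 q.2.2.1 q.2.2.2.1)) (p, x) :=
    ContinuousAt.comp (f := fun q : ℂ × (ℂ × ℂ × ℂ × ℂ) =>
      ((q.1, N.t3 e κ q.1 q.2.1 q.2.2.1 q.2.2.2.1) : ℂ × ℂ))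
      (g := fun q : ℂ × ℂ => far.C q.1 0 q.2) (far.C_diff p h.mem 0 _ h.t3_mem).continuousAt cpair
  have cv3 : ContinuousAt (fun q : ℂ × (ℂ × ℂ × ℂ × ℂ) =>
      far.v q.1 0 (N.t3 e κ q.1 q.2.1 q.2.2.1 q.2.2.2.1)) (p, x) :=
    ContinuousAt.comp (f := fun q : ℂ × (ℂ × ℂ × ℂ × ℂ) =>
      ((q.1, N.t3 e κ q.1 q.2.1 q.2.2.1 q.2.2.2.1) : ℂ × ℂ))
      (g := fun q : ℂ × ℂ => far.v q.1 0 q.2) (far.v_diff p h.mem 0 _ h.t3_mem).continuousAt cpair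
  have cr3 : ContinuousAt (fun q : ℂ × (ℂ × ℂ × ℂ × ℂ) =>
      far.r q.1 0 (N.t3 e κ q.1 q.2.1 q.2.2.1 q.2.2.2.1)) (p, x) :=
    ContinuousAt.comp (f := fun q : ℂ × (ℂ × ℂ × ℂ × ℂ) =>
      ((q.1, N.t3 e κ q.1 q.2.1 q.2.2.1 q.2.2.2.1) : ℂ × ℂ))
      (g := fun q : ℂ × ℂ => far.r q.1 0 q.2) (far.r_diff p h.mem 0 _ h.t3_mem).continuousAt cpair
  have cF3 := cont_fF cC3 (cv3.sub (cr3.mul cx3))
  have t3re := far.Ω_re p h.mem 0 _ h.t3_mem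
  have c1 : ContinuousAt (fun _ : ℂ × (ℂ × ℂ × ℂ × ℂ) => (1 : ℂ)) (p, x) := continuousAt_const
  have cl0 := cont_lawF (e := e) hκ cC0 c1 cX0 ct1 cF1 h.X0_ne h.t1_re
  have cl1 := cont_lawF (e := e) hκ cC1 c1 cX1 ct2 cF2 h.X1_ne h.t2_re
  have cl2 := cont_lawF (e := e) hκ cC2 c1 cX2 ct3 cF3 h.X2_ne t3re
  have ck0 := cx0.sub (cM0.mul (cx0.sub cl0))
  have ck1 := cx1.sub (cM1.mul (cx1.sub cl1))
  have ck2 := cx2.sub (cM2.mul (cx2.sub cl2))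
  have cim : ContinuousAt (fun q : ℂ × (ℂ × ℂ × ℂ × ℂ) => |q.1.im|) (p, x) := by fun_prop
  have ent : ∀ᶠ q : ℂ × (ℂ × ℂ × ℂ × ℂ) in 𝓝 (p, x),
      ((q.1, N.t3 e κ q.1 q.2.1 q.2.2.1 q.2.2.2.1) : ℂ × ℂ) ∈
        {q : ℂ × ℂ | q.1 ∈ far.DF ∧ q.2 ∈ far.Ω q.1 0} :=
    cpair.eventually (far.isOpen_entry.mem_nhds ⟨h.mem, h.t3_mem⟩)
  filter_upwards [cp.eventually (hO.mem_nhds h.mem), cim.eventually (isOpen_Iio.mem_nhds h.strip),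
    cX0.eventually (isOpen_ne.mem_nhds h.X0_ne), cX1.eventually (isOpen_ne.mem_nhds h.X1_ne),
    cX2.eventually (isOpen_ne.mem_nhds h.X2_ne), cM0.eventually (isOpen_ne.mem_nhds h.M0_ne),
    cM1.eventually (isOpen_ne.mem_nhds h.M1_ne), cM2.eventually (isOpen_ne.mem_nhds h.M2_ne),
    ev_slit cg0 h.g0, ev_slit cg1 h.g1,
    ev_slit cg2 h.g2, ev_slit cF0 h.F0, ev_slit cF1 h.F1, ev_slit cF2 h.F2, ev_slit cw0 h.w0,
    ev_slit crad0 h.rad0, ev_slit crH h.rH, ev_re ct1 h.t1_re, ev_slit crad1 h.rad1,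
    ev_re ct2 h.t2_re, ev_slit crad2 h.rad2, ent, ev_lt ck0 h.close0, ev_lt ck1 h.close1,
    ev_lt ck2 h.close2] with q a1 a2 a3 a4 a5 b1 b2 b3 a6 a7 a8 a9 a10 a11 a12 a13 a14 a15 a16
      a17 a18 a19 a20 a21 a22
  exact ⟨a1, a2, a3, a4, a5, b1, b2, b3, a6, a7, a8, a9, a10, a11, a12, a13, a14, a15, a16, a17,
    a18, a19.2, a20, a21, a22⟩

/-- **Conjugation.** -/
theorem nearPt_conj (hκ : 0 < κ) {far : FarF e κ θ} {N : Near far.DF} {p : ℂ}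
    {x : ℂ × ℂ × ℂ × ℂ} (h : NearPt far N p x) :
    N.t1 e κ (conj p) (conj x.1) = conj (N.t1 e κ p x.1) ∧
    N.t2 e κ (conj p) (conj x.1) (conj x.2.1) = conj (N.t2 e κ p x.1 x.2.1) ∧
    N.t3 e κ (conj p) (conj x.1) (conj x.2.1) (conj x.2.2.1) =
      conj (N.t3 e κ p x.1 x.2.1 x.2.2.1) ∧
    NearPt far N (conj p) (conj x.1, conj x.2.1, conj x.2.2.1, conj x.2.2.2) := by
  have hp := h.mem
  have eC0 := N.C0_conj p hp
  have eX0 := N.X0_conj p hp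
  have eC1 := N.C1_conj p hp
  have eX1 := N.X1_conj p hp
  have eC2 := N.C2_conj p hp
  have eX2 := N.X2_conj p hp
  have eM0 := N.M0_conj p hp
  have eM1 := N.M1_conj p hp
  have eM2 := N.M2_conj p hp
  have eg0 : 1 - N.X0 (conj p) * conj x.1 = conj (1 - N.X0 p * x.1) := by
    rw [eX0, map_sub, map_one, map_mul]
  have eg1 : 1 - N.X1 (conj p) * conj x.2.1 = conj (1 - N.X1 p * x.2.1) := by
    rw [eX1, map_sub, map_one, map_mul]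
  have eg2 : 1 - N.X2 (conj p) * conj x.2.2.1 = conj (1 - N.X2 p * x.2.2.1) := by
    rw [eX2, map_sub, map_one, map_mul]
  have eF0 : fF (N.C0 (conj p)) (1 - N.X0 (conj p) * conj x.1) =
      conj (fF (N.C0 p) (1 - N.X0 p * x.1)) := by rw [eg0, eC0, conj_fF]
  have eF1 : fF (N.C1 (conj p)) (1 - N.X1 (conj p) * conj x.2.1) =
      conj (fF (N.C1 p) (1 - N.X1 p * x.2.1)) := by rw [eg1, eC1, conj_fF]
  have eF2 : fF (N.C2 (conj p)) (1 - N.X2 (conj p) * conj x.2.2.1) =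
      conj (fF (N.C2 p) (1 - N.X2 p * x.2.2.1)) := by rw [eg2, eC2, conj_fF]
  have et1 : N.t1 e κ (conj p) (conj x.1) = conj (N.t1 e κ p x.1) := by
    unfold Near.t1
    rw [eg0, eC0, conj_step0F hκ h.g0 h.F0 h.w0 h.rad0]
  have et2 : N.t2 e κ (conj p) (conj x.1) (conj x.2.1) = conj (N.t2 e κ p x.1 x.2.1) := by
    unfold Near.t2
    rw [et1, eg1, eC1, conj_stepF hκ h.g1 h.F1 h.rad1]
  have et3 : N.t3 e κ (conj p) (conj x.1) (conj x.2.1) (conj x.2.2.1) =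
      conj (N.t3 e κ p x.1 x.2.1 x.2.2.1) := by
    unfold Near.t3
    rw [et2, eg2, eC2, conj_stepF hκ h.g2 h.F2 h.rad2]
  refine ⟨et1, et2, et3, ?_⟩
  have hc := far.conj_entry p hp _ h.t3_mem
  have t3re := far.Ω_re p hp 0 _ h.t3_mem
  have cne : ∀ z : ℂ, z ≠ 0 → conj z ≠ 0 := fun z hz => (map_ne_zero _).2 hz
  have one : (1 : ℂ) = conj (1 : ℂ) := (map_one _).symm
  refine ⟨far.conj_DF p hp, ?_, ?_, ?_, ?_, ?_, ?_, ?_, ?_, ?_, ?_, ?_, ?_, ?_, ?_, ?_, ?_, ?_, ?_,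
    ?_, ?_, ?_, ?_, ?_, ?_⟩
  · rw [conj_im, abs_neg]
    exact h.strip
  · rw [eX0]
    exact cne _ h.X0_ne
  · rw [eX1]
    exact cne _ h.X1_ne
  · rw [eX2]
    exact cne _ h.X2_ne
  · rw [eM0]
    exact cne _ h.M0_ne
  · rw [eM1]
    exact cne _ h.M1_ne
  · rw [eM2]
    exact cne _ h.M2_ne
  · show 1 - N.X0 (conj p) * conj x.1 ∈ slitPlane
    rw [eg0]
    exact slit_conj h.g0
  · show 1 - N.X1 (conj p) * conj x.2.1 ∈ slitPlane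
    rw [eg1]
    exact slit_conj h.g1
  · show 1 - N.X2 (conj p) * conj x.2.2.1 ∈ slitPlane
    rw [eg2]
    exact slit_conj h.g2
  · show fF (N.C0 (conj p)) (1 - N.X0 (conj p) * conj x.1) ∈ slitPlane
    rw [eF0]
    exact slit_conj h.F0
  · show fF (N.C1 (conj p)) (1 - N.X1 (conj p) * conj x.2.1) ∈ slitPlane
    rw [eF1]
    exact slit_conj h.F1
  · show fF (N.C2 (conj p)) (1 - N.X2 (conj p) * conj x.2.2.1) ∈ slitPlane
    rw [eF2]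
    exact slit_conj h.F2
  · show 1 - rho e κ (fF (N.C0 (conj p)) (1 - N.X0 (conj p) * conj x.1)) ^ 2 *
      (1 - tanh (κ * conj p) ^ 2) ∈ slitPlane
    rw [eF0, conj_rho hκ h.F0, conj_tanh]
    have := slit_conj h.w0
    simpa only [map_sub, map_one, map_mul, map_pow] using this
  · show rad0F e κ (conj p) (N.C0 (conj p)) (1 - N.X0 (conj p) * conj x.1) ∈ slitPlane
    rw [eg0, eC0, conj_rad0F hκ h.g0 h.F0 h.w0]
    exact slit_conj h.rad0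
  · show radH e κ (conj p) (fF (N.C0 (conj p)) (1 - N.X0 (conj p) * conj x.1)) ∈ slitPlane
    rw [eF0, conj_radH hκ h.F0 h.w0]
    exact slit_conj h.rH
  · show 0 < (N.t1 e κ (conj p) (conj x.1)).re
    rw [et1, conj_re]
    exact h.t1_re
  · show radF e κ (N.t1 e κ (conj p) (conj x.1)) (N.C1 (conj p))
      (1 - N.X1 (conj p) * conj x.2.1) ∈ slitPlane
    rw [et1, eg1, eC1, conj_radF hκ h.g1 h.F1]
    exact slit_conj h.rad1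
  · show 0 < (N.t2 e κ (conj p) (conj x.1) (conj x.2.1)).re
    rw [et2, conj_re]
    exact h.t2_re
  · show radF e κ (N.t2 e κ (conj p) (conj x.1) (conj x.2.1)) (N.C2 (conj p))
      (1 - N.X2 (conj p) * conj x.2.2.1) ∈ slitPlane
    rw [et2, eg2, eC2, conj_radF hκ h.g2 h.F2]
    exact slit_conj h.rad2
  · show N.t3 e κ (conj p) (conj x.1) (conj x.2.1) (conj x.2.2.1) ∈ far.Ω (conj p) 0
    rw [et3]
    exact hc
  · show ‖conj x.1 - N.M0 (conj p) * (conj x.1 - lawF e κ (N.C0 (conj p)) 1 (N.X0 (conj p))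
      (N.t1 e κ (conj p) (conj x.1)) (fF (N.C1 (conj p)) (1 - N.X1 (conj p) * conj x.2.1)))‖ < θ
    rw [et1, eF1, eC0, eX0, eM0, one, conj_lawF hκ h.t1_re, ← one, ← map_sub, ← map_mul,
      ← map_sub, norm_conj]
    exact h.close0
  · show ‖conj x.2.1 - N.M1 (conj p) * (conj x.2.1 - lawF e κ (N.C1 (conj p)) 1 (N.X1 (conj p))
      (N.t2 e κ (conj p) (conj x.1) (conj x.2.1))
      (fF (N.C2 (conj p)) (1 - N.X2 (conj p) * conj x.2.2.1)))‖ < θ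
    rw [et2, eF2, eC1, eX1, eM1, one, conj_lawF hκ h.t2_re, ← one, ← map_sub, ← map_mul,
      ← map_sub, norm_conj]
    exact h.close1
  · show ‖conj x.2.2.1 - N.M2 (conj p) * (conj x.2.2.1 - lawF e κ (N.C2 (conj p)) 1
      (N.X2 (conj p)) (N.t3 e κ (conj p) (conj x.1) (conj x.2.1) (conj x.2.2.1))
      (fF (far.C (conj p) 0 (N.t3 e κ (conj p) (conj x.1) (conj x.2.1) (conj x.2.2.1)))
      (far.v (conj p) 0 (N.t3 e κ (conj p) (conj x.1) (conj x.2.1) (conj x.2.2.1)) -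
        far.r (conj p) 0 (N.t3 e κ (conj p) (conj x.1) (conj x.2.1) (conj x.2.2.1)) *
          conj x.2.2.2)))‖ < θ
    rw [et3, far.C_conj p hp _ h.t3_mem, far.v_conj p hp _ h.t3_mem, far.r_conj p hp _ h.t3_mem,
      ← map_mul, ← map_sub, conj_fF, eC2, eX2, eM2, one, conj_lawF hκ t3re, ← map_sub,
      ← map_mul, ← map_sub, norm_conj]
    exact h.close2

/-- the closed polydisc -/
def K4 : Set (ℂ × ℂ × ℂ × ℂ) := closedBall 0 1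

theorem mem_K4 {x : ℂ × ℂ × ℂ × ℂ} :
    x ∈ K4 ↔ ‖x.1‖ ≤ 1 ∧ ‖x.2.1‖ ≤ 1 ∧ ‖x.2.2.1‖ ≤ 1 ∧ ‖x.2.2.2‖ ≤ 1 := by
  unfold K4
  rw [mem_closedBall_zero_iff, Prod.norm_def, Prod.norm_def, Prod.norm_def]
  simp only [sup_le_iff]

theorem isCompact_K4 : IsCompact K4 := isCompact_closedBall 0 1

theorem mk_mem_K4 {a b c d : ℂ} (ha : ‖a‖ ≤ 1) (hb : ‖b‖ ≤ 1) (hc : ‖c‖ ≤ 1) (hd : ‖d‖ ≤ 1) :
    (a, b, c, d) ∈ K4 := mem_K4.2 ⟨ha, hb, hc, hd⟩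

/-- The domain of starts. -/
def DA (far : FarF e κ θ) (N : Near far.DF) : Set ℂ :=
  {p | (∀ᶠ p' in 𝓝 p, ∀ x ∈ K4, NearPt far N p' x) ∧
    ∀ᶠ p' : ℂ in 𝓝 p, p'.im = 0 → ∀ x ∈ K4, RhoPt far N p' x}

theorem isOpen_DA (far : FarF e κ θ) (N : Near far.DF) : IsOpen (DA far N) := by
  rw [isOpen_iff_mem_nhds]
  intro p hp
  filter_upwards [eventually_eventually_nhds.2 hp.1, eventually_eventually_nhds.2 hp.2]
    with q h1 h2
  exact ⟨h1, h2⟩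

theorem DA_near {far : FarF e κ θ} {N : Near far.DF} {p : ℂ} (hp : p ∈ DA far N)
    {x : ℂ × ℂ × ℂ × ℂ} (hx : x ∈ K4) : NearPt far N p x := hp.1.self_of_nhds x hx

theorem DA_rho' {far : FarF e κ θ} {N : Near far.DF} {p : ℂ} (hp : p ∈ DA far N) :
    p.im = 0 → ∀ x ∈ K4, RhoPt far N p x := by
  obtain ⟨_, h2⟩ := hp
  have h3 := mem_of_mem_nhds h2
  exact h3

theorem DA_rho {far : FarF e κ θ} {N : Near far.DF} {p : ℂ} (hp : p ∈ DA far N)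
    (hi : p.im = 0) {x : ℂ} (hx : ‖x‖ ≤ 1) :
    ‖rho e κ (fF (N.C0 p) (1 - N.X0 p * x))‖ < 1 := by
  have z1 : ‖(0 : ℂ)‖ ≤ 1 := by simp
  have h := DA_rho' hp hi _ (mk_mem_K4 hx z1 z1 z1)
  unfold RhoPt at h
  exact h

theorem mem_DA (hκ : 0 < κ) {far : FarF e κ θ} {N : Near far.DF} {p : ℂ}
    (h : ∀ x ∈ K4, NearPt far N p x) (h0 : p.im = 0 → ∀ x ∈ K4, RhoPt far N p x) :
    p ∈ DA far N := by
  constructor
  · exact isCompact_K4.eventually_forall_of_forall_eventually (fun x hx => nearPt_open hκ (h x hx))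
  · by_cases hi : p.im = 0
    · have h1 : ∀ᶠ p' in 𝓝 p, ∀ x ∈ K4, RhoPt far N p' x := by
        apply isCompact_K4.eventually_forall_of_forall_eventually
        intro x hx
        have hn := h x hx
        have hO := far.isOpen_DF
        have cC0 := comp_cont hO N.C0_diff hn.mem (x := x)
        have cX0 := comp_cont hO N.X0_diff hn.mem (x := x)
        have cx0 : ContinuousAt (fun q : ℂ × (ℂ × ℂ × ℂ × ℂ) => q.2.1) (p, x) := by fun_prop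
        have cg0 : ContinuousAt (fun q : ℂ × (ℂ × ℂ × ℂ × ℂ) => 1 - N.X0 q.1 * q.2.1) (p, x) :=
          continuousAt_const.sub (cX0.mul cx0)
        have crho : ContinuousAt (fun q : ℂ × (ℂ × ℂ × ℂ × ℂ) =>
            rho e κ (fF (N.C0 q.1) (1 - N.X0 q.1 * q.2.1))) (p, x) :=
          cont_rho hκ (cont_fF cC0 cg0) hn.F0
        exact ev_lt crho (h0 hi x hx)
      filter_upwards [h1] with q hq _ using hq
    · have h1 : ∀ᶠ p' : ℂ in 𝓝 p, p'.im ≠ 0 :=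
        Complex.continuous_im.continuousAt.eventually (isOpen_ne.mem_nhds hi)
      filter_upwards [h1] with q hq h2
      exact absurd h2 hq

/-- centres of the nodes `n + 2` -/
def asmC (far : FarF e κ θ) (N : Near far.DF) : ℂ → ℕ → ℂ → ℂ
  | p, 0, _ => N.C1 p
  | p, 1, _ => N.C2 p
  | p, n + 2, τ => far.C p n τ

def asmv (far : FarF e κ θ) : ℂ → ℕ → ℂ → ℂ
  | _, 0, _ => 1
  | _, 1, _ => 1
  | p, n + 2, τ => far.v p n τ

def asmr (far : FarF e κ θ) (N : Near far.DF) : ℂ → ℕ → ℂ → ℂ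
  | p, 0, _ => N.X1 p
  | p, 1, _ => N.X2 p
  | p, n + 2, τ => far.r p n τ

def asmM (far : FarF e κ θ) (N : Near far.DF) : ℂ → ℕ → ℂ → ℂ
  | p, 0, _ => N.M1 p
  | p, 1, _ => N.M2 p
  | _, _ + 2, _ => 1

def asmO (far : FarF e κ θ) (N : Near far.DF) : ℂ → ℕ → Set ℂ
  | p, 0 => {τ | ∃ x0 : ℂ, ‖x0‖ ≤ 1 ∧ τ = N.t1 e κ p x0}
  | p, 1 => {τ | ∃ x0 x1 : ℂ, ‖x0‖ ≤ 1 ∧ ‖x1‖ ≤ 1 ∧ τ = N.t2 e κ p x0 x1}
  | p, n + 2 => far.Ω p n

private theorem real_of_conj {f : ℂ → ℂ} {DF : Set ℂ} (h : ∀ p ∈ DF, f (conj p) = conj (f p))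
    {p : ℝ} (hp : (p : ℂ) ∈ DF) : (f p).im = 0 := by
  have h1 := h _ hp
  rw [conj_ofReal] at h1
  exact conj_eq_iff_im.1 h1.symm

private theorem fst_diff {DF : Set ℂ} (hDF : IsOpen DF) {f : ℂ → ℂ}
    (hf : DifferentiableOn ℂ f DF) {p : ℂ} (hp : p ∈ DF) (τ : ℂ) :
    DifferentiableAt ℂ (fun q : ℂ × ℂ => f q.1) (p, τ) :=
  DifferentiableAt.comp (f := fun q : ℂ × ℂ => q.1) (g := f) (p, τ)
    ((hf p hp).differentiableAt (hDF.mem_nhds hp)) differentiableAt_fst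

/-- **Assembly.** -/
theorem nonempty_RDataF (hκ : 0 < κ) (hθ0 : 0 ≤ θ) (hθ1 : θ < 1) (far : FarF e κ θ)
    (N : Near far.DF) {η : ℝ} (hη : 0 < η)
    (hseg : ∀ y : ℝ, 0 ≤ y → y ≤ η → ∀ x ∈ K4, NearPt far N ((y : ℂ) * I) x)
    (h0 : ∀ x ∈ K4, RhoPt far N 0 x)
    (test : ∀ x : ℕ → ℂ, (∀ n, ‖x n‖ ≤ 1) →
      (∀ n, x n = PhiF e κ N.C0 (fun _ => 1) N.X0 (asmC far N) (asmv far) (asmr far N) N.M0
        (asmM far N) ((η : ℂ) * I) x n) →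
      (H0 e κ ((η : ℂ) * I)
        (fF (N.C0 ((η : ℂ) * I)) (1 - N.X0 ((η : ℂ) * I) * x 0))).re ≠ 1 / 2) :
    Nonempty (RDataF e κ) := by
  have z1 : ‖(0 : ℂ)‖ ≤ 1 := by simp
  have zK : ((0, 0, 0, 0) : ℂ × ℂ × ℂ × ℂ) ∈ K4 := mk_mem_K4 z1 z1 z1 z1
  have hmemF : ∀ p ∈ DA far N, p ∈ far.DF := fun p hp => (DA_near hp zK).mem
  have hsegD : ∀ y : ℝ, |y| ≤ η → ((y : ℂ) * I) ∈ DA far N := by
    have hpos : ∀ y : ℝ, 0 ≤ y → y ≤ η → ((y : ℂ) * I) ∈ DA far N := by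
      intro y hy hy2
      refine mem_DA hκ (hseg y hy hy2) ?_
      intro hi x hx
      have hy0 : y = 0 := by simpa using hi
      rw [hy0, ofReal_zero, zero_mul]
      exact h0 x hx
    intro y hy
    rcases le_total 0 y with h | h
    · exact hpos y h (le_trans (le_abs_self y) hy)
    · have h2 : -y ≤ η := le_trans (neg_le_abs y) hy
      have h3 := hseg (-y) (by linarith) h2
      have e1 : (y : ℂ) * I = conj (((-y : ℝ) : ℂ) * I) := by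
        rw [map_mul, conj_ofReal, conj_I]
        push_cast
        ring
      refine mem_DA hκ ?_ ?_
      · intro x hx
        have hx' := mem_K4.1 hx
        have h4 := (nearPt_conj hκ (h3 (conj x.1, conj x.2.1, conj x.2.2.1, conj x.2.2.2)
          (mk_mem_K4 (by rw [norm_conj]; exact hx'.1) (by rw [norm_conj]; exact hx'.2.1)
            (by rw [norm_conj]; exact hx'.2.2.1) (by rw [norm_conj]; exact hx'.2.2.2)))).2.2.2
        simp only [conj_conj] at h4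
        rw [← e1] at h4
        exact h4
      · intro hi x hx
        have hy0 : y = 0 := by simpa using hi
        rw [hy0, ofReal_zero, zero_mul]
        exact h0 x hx
  refine ⟨{
    θ := θ
    hθ0 := hθ0
    hθ1 := hθ1
    D := DA far N
    isOpen_D := isOpen_DA far N
    D_strip := fun p hp => (DA_near hp zK).strip
    Ω := asmO far N
    Ω_re := ?_
    C0 := N.C0
    v0 := fun _ => 1
    r0 := N.X0
    C := asmC far N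
    v := asmv far
    r := asmr far N
    M0 := N.M0
    M := asmM far N
    C0_diff := N.C0_diff.mono hmemF
    v0_diff := differentiableOn_const _
    r0_diff := N.X0_diff.mono hmemF
    M0_diff := N.M0_diff.mono hmemF
    C_diff := ?_
    v_diff := ?_
    r_diff := ?_
    M_diff := ?_
    r0_ne := fun p hp => (DA_near hp zK).X0_ne
    r_ne := ?_
    M0_ne := fun p hp => (DA_near hp zK).M0_ne
    M_ne := ?_
    C0_real := fun p hp => real_of_conj N.C0_conj (hmemF _ hp)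
    v0_real := fun p _ => by simp
    r0_real := fun p hp => real_of_conj N.X0_conj (hmemF _ hp)
    M0_real := fun p hp => real_of_conj N.M0_conj (hmemF _ hp)
    C_real := ?_
    v_real := ?_
    r_real := ?_
    M_real := ?_
    F0_slit := fun p hp x hx => (DA_near hp (mk_mem_K4 hx z1 z1 z1)).F0
    g0_slit := fun p hp x hx => (DA_near hp (mk_mem_K4 hx z1 z1 z1)).g0
    w0_slit := fun p hp x hx => (DA_near hp (mk_mem_K4 hx z1 z1 z1)).w0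
    rad0_slit := fun p hp x hx => (DA_near hp (mk_mem_K4 hx z1 z1 z1)).rad0
    radH_slit := fun p hp x hx => (DA_near hp (mk_mem_K4 hx z1 z1 z1)).rH
    rho_lt := fun p hp x hx => DA_rho hp (ofReal_im p) hx
    F_slit := ?_
    g_slit := ?_
    rad_slit := ?_
    inv0 := fun p _ x hx => ⟨x, hx, rfl⟩
    inv := ?_
    close0 := ?_
    close := ?_
    tend := ?_
    η := η
    hη := hη
    seg := hsegD
    test := test }⟩
  · rintro p hp (_ | _ | n) τ hτ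
    · obtain ⟨x0, hx0, rfl⟩ := hτ
      exact (DA_near hp (mk_mem_K4 hx0 z1 z1 z1)).t1_re
    · obtain ⟨x0, x1, hx0, hx1, rfl⟩ := hτ
      exact (DA_near hp (mk_mem_K4 hx0 hx1 z1 z1)).t2_re
    · exact far.Ω_re p (hmemF p hp) n τ hτ
  · rintro p hp (_ | _ | n) τ hτ
    · exact fst_diff far.isOpen_DF N.C1_diff (hmemF p hp) τ
    · exact fst_diff far.isOpen_DF N.C2_diff (hmemF p hp) τ
    · exact far.C_diff p (hmemF p hp) n τ hτ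
  · rintro p hp (_ | _ | n) τ hτ
    · exact differentiableAt_const _
    · exact differentiableAt_const _
    · exact far.v_diff p (hmemF p hp) n τ hτ
  · rintro p hp (_ | _ | n) τ hτ
    · exact fst_diff far.isOpen_DF N.X1_diff (hmemF p hp) τ
    · exact fst_diff far.isOpen_DF N.X2_diff (hmemF p hp) τ
    · exact far.r_diff p (hmemF p hp) n τ hτ
  · rintro p hp (_ | _ | n) τ hτ
    · exact fst_diff far.isOpen_DF N.M1_diff (hmemF p hp) τ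
    · exact fst_diff far.isOpen_DF N.M2_diff (hmemF p hp) τ
    · exact differentiableAt_const _
  · rintro p hp (_ | _ | n) τ hτ
    · exact (DA_near hp zK).X1_ne
    · exact (DA_near hp zK).X2_ne
    · exact far.r_ne p (hmemF p hp) n τ hτ
  · rintro p hp (_ | _ | n) τ hτ
    · exact (DA_near hp zK).M1_ne
    · exact (DA_near hp zK).M2_ne
    · exact one_ne_zero
  · rintro p hp (_ | _ | n) τ hτ
    · exact real_of_conj N.C1_conj (hmemF _ hp)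
    · exact real_of_conj N.C2_conj (hmemF _ hp)
    · exact far.C_real p (hmemF _ hp) n τ hτ
  · rintro p hp (_ | _ | n) τ hτ
    · exact one_im
    · exact one_im
    · exact far.v_real p (hmemF _ hp) n τ hτ
  · rintro p hp (_ | _ | n) τ hτ
    · exact real_of_conj N.X1_conj (hmemF _ hp)
    · exact real_of_conj N.X2_conj (hmemF _ hp)
    · exact far.r_real p (hmemF _ hp) n τ hτ
  · rintro p hp (_ | _ | n) τ hτ
    · exact real_of_conj N.M1_conj (hmemF _ hp)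
    · exact real_of_conj N.M2_conj (hmemF _ hp)
    · exact one_im
  · rintro p hp (_ | _ | n) τ hτ x hx
    · exact (DA_near hp (mk_mem_K4 z1 hx z1 z1)).F1
    · exact (DA_near hp (mk_mem_K4 z1 z1 hx z1)).F2
    · exact far.F_slit p (hmemF p hp) n τ hτ x hx
  · rintro p hp (_ | _ | n) τ hτ x hx
    · exact (DA_near hp (mk_mem_K4 z1 hx z1 z1)).g1
    · exact (DA_near hp (mk_mem_K4 z1 z1 hx z1)).g2
    · exact far.g_slit p (hmemF p hp) n τ hτ x hx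
  · rintro p hp (_ | _ | n) τ hτ x hx
    · obtain ⟨x0, hx0, rfl⟩ := hτ
      exact (DA_near hp (mk_mem_K4 hx0 hx z1 z1)).rad1
    · obtain ⟨x0, x1, hx0, hx1, rfl⟩ := hτ
      exact (DA_near hp (mk_mem_K4 hx0 hx1 hx z1)).rad2
    · exact far.rad_slit p (hmemF p hp) n τ hτ x hx
  · rintro p hp (_ | _ | n) τ hτ x hx
    · obtain ⟨x0, hx0, rfl⟩ := hτ
      exact ⟨x0, x, hx0, hx, rfl⟩
    · obtain ⟨x0, x1, hx0, hx1, rfl⟩ := hτ
      exact (DA_near hp (mk_mem_K4 hx0 hx1 hx z1)).t3_mem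
    · exact far.inv p (hmemF p hp) n τ hτ x hx
  · rintro p hp x x' hx hx' τ rfl
    exact (DA_near hp (mk_mem_K4 hx hx' z1 z1)).close0.le
  · rintro p hp (_ | _ | n) τ hτ x x' hx hx' τ' rfl
    · obtain ⟨x0, hx0, rfl⟩ := hτ
      exact (DA_near hp (mk_mem_K4 hx0 hx hx' z1)).close1.le
    · obtain ⟨x0, x1, hx0, hx1, rfl⟩ := hτ
      exact (DA_near hp (mk_mem_K4 hx0 hx1 hx hx')).close2.le
    · have h := far.close p (hmemF p hp) n τ hτ x x' hx hx' _ rfl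
      show ‖x - 1 * (x - lawF e κ _ _ _ _ _)‖ ≤ θ
      rw [one_mul, sub_sub_cancel]
      exact h
  · intro p hp x hx hr
    have hN := nearPt_conj hκ (DA_near hp (mk_mem_K4 (hx 0) (hx 1) (hx 2) (hx 3)))
    have hcx : ∀ n, conj (x n) = x n := fun n => conj_eq_iff_im.2 (hr n)
    have h3 := hN.2.2.1
    have h4 := hN.2.2.2.t3_mem
    rw [conj_ofReal] at h3 h4
    simp only [hcx] at h3 h4
    have h5 : (N.t3 e κ p (x 0) (x 1) (x 2)).im = 0 := conj_eq_iff_im.1 h3.symm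
    have h6 := far.tend p (hmemF _ hp) (fun n => x (n + 3)) (fun n => hx _) (fun n => hr _)
      (fun n => posF e κ N.C0 (fun _ => 1) N.X0 (asmC far N) (asmv far) (asmr far N) p x (n + 2))
      h4 h5 (fun n => rfl)
    exact (tendsto_add_atTop_iff_nat 2).1 h6

/-- Assembly with the test for all `x 0`. -/
theorem nonempty_RDataF' (hκ : 0 < κ) (hθ0 : 0 ≤ θ) (hθ1 : θ < 1) (far : FarF e κ θ)
    (N : Near far.DF) {η : ℝ} (hη : 0 < η)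
    (hseg : ∀ y : ℝ, 0 ≤ y → y ≤ η → ∀ x ∈ K4, NearPt far N ((y : ℂ) * I) x)
    (h0 : ∀ x ∈ K4, RhoPt far N 0 x)
    (test : ∀ x0 : ℂ, ‖x0‖ ≤ 1 → (H0 e κ ((η : ℂ) * I)
        (fF (N.C0 ((η : ℂ) * I)) (1 - N.X0 ((η : ℂ) * I) * x0))).re ≠ 1 / 2) :
    Nonempty (RDataF e κ) :=
  nonempty_RDataF hκ hθ0 hθ1 far N hη hseg h0 (fun x hx _ => test (x 0) (hx 0))

end Pool.Agent.helper12.RP
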