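import Pool.Agent.helper12.RP.Assembly

/-!
# Assembly of `RDataF` for any number of near nodes

The nodes `1, ..., L + 1` are near: node `1` has the centre `C0 p`, the radius `X0 p` and the
preconditioner `M0 p`; the node `n + 2` (`n < L`) has `C n p τ`, `X n p τ`, `M n p τ`, functions of the
start and of the position `τ`, defined for `(p, τ) ∈ S n`.  The node `n + 2` with `n ≥ L` belongs to
the far field record with index `n - L`.
-/

namespace Pool.Agent.helper12.RP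

open Set Metric Filter Topology Complex ComplexConjugate
open Pool.Agent.helper31.EQ.Y Pool.Agent.helper31.EQ.R

/-- Centres, radii and preconditioners of the near nodes. -/
structure NearN where
  DN : Set ℂ
  isOpen_DN : IsOpen DN
  conj_DN : ∀ p ∈ DN, conj p ∈ DN
  C0 : ℂ → ℂ
  X0 : ℂ → ℂ
  M0 : ℂ → ℂ
  /-- domains of the functions of the node `n + 2` -/
  S : ℕ → Set (ℂ × ℂ)
  isOpen_S : ∀ n, IsOpen (S n)
  conj_S : ∀ n, ∀ p τ : ℂ, (p, τ) ∈ S n → (conj p, conj τ) ∈ S n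
  C : ℕ → ℂ → ℂ → ℂ
  X : ℕ → ℂ → ℂ → ℂ
  M : ℕ → ℂ → ℂ → ℂ
  C0_diff : DifferentiableOn ℂ C0 DN
  X0_diff : DifferentiableOn ℂ X0 DN
  M0_diff : DifferentiableOn ℂ M0 DN
  C_diff : ∀ n, ∀ p τ : ℂ, (p, τ) ∈ S n →
    DifferentiableAt ℂ (fun q : ℂ × ℂ => C n q.1 q.2) (p, τ)
  X_diff : ∀ n, ∀ p τ : ℂ, (p, τ) ∈ S n →
    DifferentiableAt ℂ (fun q : ℂ × ℂ => X n q.1 q.2) (p, τ)
  M_diff : ∀ n, ∀ p τ : ℂ, (p, τ) ∈ S n →
    DifferentiableAt ℂ (fun q : ℂ × ℂ => M n q.1 q.2) (p, τ)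
  C0_conj : ∀ p ∈ DN, C0 (conj p) = conj (C0 p)
  X0_conj : ∀ p ∈ DN, X0 (conj p) = conj (X0 p)
  M0_conj : ∀ p ∈ DN, M0 (conj p) = conj (M0 p)
  C_conj : ∀ n, ∀ p τ : ℂ, (p, τ) ∈ S n → C n (conj p) (conj τ) = conj (C n p τ)
  X_conj : ∀ n, ∀ p τ : ℂ, (p, τ) ∈ S n → X n (conj p) (conj τ) = conj (X n p τ)
  M_conj : ∀ n, ∀ p τ : ℂ, (p, τ) ∈ S n → M n (conj p) (conj τ) = conj (M n p τ)

variable {e κ θ : ℝ}

noncomputable section

/-- centres of the nodes `n + 2` -/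
def aC (far : FarF e κ θ) (N : NearN) (L : ℕ) (p : ℂ) (n : ℕ) (τ : ℂ) : ℂ :=
  if n < L then N.C n p τ else far.C p (n - L) τ

def av (far : FarF e κ θ) (L : ℕ) (p : ℂ) (n : ℕ) (τ : ℂ) : ℂ :=
  if n < L then 1 else far.v p (n - L) τ

def ar (far : FarF e κ θ) (N : NearN) (L : ℕ) (p : ℂ) (n : ℕ) (τ : ℂ) : ℂ :=
  if n < L then N.X n p τ else far.r p (n - L) τ

def aM (N : NearN) (L : ℕ) (p : ℂ) (n : ℕ) (τ : ℂ) : ℂ :=
  if n < L then N.M n p τ else 1

/-- positions -/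
def aP (far : FarF e κ θ) (N : NearN) (L : ℕ) (p : ℂ) (x : ℕ → ℂ) (n : ℕ) : ℂ :=
  posF e κ N.C0 (fun _ => 1) N.X0 (aC far N L) (av far L) (ar far N L) p x n

/-- values of the nodes `n + 2` -/
def aV (far : FarF e κ θ) (N : NearN) (L : ℕ) (p : ℂ) (x : ℕ → ℂ) (n : ℕ) : ℂ :=
  valF e κ N.C0 (fun _ => 1) N.X0 (aC far N L) (av far L) (ar far N L) p x n

/-- the sequence map -/
def aPhi (far : FarF e κ θ) (N : NearN) (L : ℕ) (p : ℂ) (x : ℕ → ℂ) (n : ℕ) : ℂ :=
  PhiF e κ N.C0 (fun _ => 1) N.X0 (aC far N L) (av far L) (ar far N L) N.M0 (aM N L) p x n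

end

section eqs

variable {far : FarF e κ θ} {N : NearN} {L : ℕ} {p τ : ℂ} {x : ℕ → ℂ} {n : ℕ}

theorem aC_lt (h : n < L) : aC far N L p n τ = N.C n p τ := if_pos h
theorem av_lt (h : n < L) : av far L p n τ = 1 := if_pos h
theorem ar_lt (h : n < L) : ar far N L p n τ = N.X n p τ := if_pos h
theorem aM_lt (h : n < L) : aM N L p n τ = N.M n p τ := if_pos h
theorem aC_ge (h : ¬ n < L) : aC far N L p n τ = far.C p (n - L) τ := if_neg h
theorem av_ge (h : ¬ n < L) : av far L p n τ = far.v p (n - L) τ := if_neg h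
theorem ar_ge (h : ¬ n < L) : ar far N L p n τ = far.r p (n - L) τ := if_neg h
theorem aM_ge (h : ¬ n < L) : aM N L p n τ = 1 := if_neg h

theorem aP_zero : aP far N L p x 0 = step0F e κ p (N.C0 p) (1 - N.X0 p * x 0) := rfl

theorem aP_succ' : aP far N L p x (n + 1) = stepF e κ (aP far N L p x n)
    (aC far N L p n (aP far N L p x n))
    (av far L p n (aP far N L p x n) - ar far N L p n (aP far N L p x n) * x (n + 1)) := rfl

theorem aP_succ (h : n < L) : aP far N L p x (n + 1) = stepF e κ (aP far N L p x n)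
    (N.C n p (aP far N L p x n)) (1 - N.X n p (aP far N L p x n) * x (n + 1)) := by
  rw [aP_succ', aC_lt h, av_lt h, ar_lt h]

theorem aV_eq : aV far N L p x n = fF (aC far N L p n (aP far N L p x n))
    (av far L p n (aP far N L p x n) - ar far N L p n (aP far N L p x n) * x (n + 1)) := rfl

theorem aV_lt (h : n < L) : aV far N L p x n = fF (N.C n p (aP far N L p x n))
    (1 - N.X n p (aP far N L p x n) * x (n + 1)) := by
  rw [aV_eq, aC_lt h, av_lt h, ar_lt h]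

theorem aV_last : aV far N L p x L = fF (far.C p 0 (aP far N L p x L))
    (far.v p 0 (aP far N L p x L) - far.r p 0 (aP far N L p x L) * x (L + 1)) := by
  rw [aV_eq, aC_ge (lt_irrefl L), av_ge (lt_irrefl L), ar_ge (lt_irrefl L), Nat.sub_self]

theorem aPhi_zero : aPhi far N L p x 0 = x 0 - N.M0 p * (x 0 -
    lawF e κ (N.C0 p) 1 (N.X0 p) (aP far N L p x 0) (aV far N L p x 0)) := rfl

theorem aPhi_succ' : aPhi far N L p x (n + 1) = x (n + 1) -
    aM N L p n (aP far N L p x n) * (x (n + 1) -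
    lawF e κ (aC far N L p n (aP far N L p x n)) (av far L p n (aP far N L p x n))
      (ar far N L p n (aP far N L p x n)) (aP far N L p x (n + 1)) (aV far N L p x (n + 1))) := rfl

theorem aPhi_succ (h : n < L) : aPhi far N L p x (n + 1) = x (n + 1) -
    N.M n p (aP far N L p x n) * (x (n + 1) -
    lawF e κ (N.C n p (aP far N L p x n)) 1 (N.X n p (aP far N L p x n))
      (aP far N L p x (n + 1)) (aV far N L p x (n + 1))) := by
  rw [aPhi_succ', aC_lt h, av_lt h, ar_lt h, aM_lt h]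

/-- the position `n` depends on `x 0, ..., x n` only -/
theorem aP_congr {y : ℕ → ℂ} : ∀ n : ℕ, (∀ k, k ≤ n → x k = y k) →
    aP far N L p x n = aP far N L p y n := by
  intro n
  induction n with
  | zero =>
    intro h
    rw [aP_zero, aP_zero, h 0 le_rfl]
  | succ n ih =>
    intro h
    rw [aP_succ', aP_succ', ih (fun k hk => h k (by omega)), h (n + 1) le_rfl]

end eqs

/-- **The pointwise conditions** at the start `p` for the sequence `x`. -/
structure NPt (far : FarF e κ θ) (N : NearN) (L : ℕ) (p : ℂ) (x : ℕ → ℂ) : Prop where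
  memN : p ∈ N.DN
  mem : p ∈ far.DF
  strip : |p.im| < Real.pi / (2 * κ)
  X0_ne : N.X0 p ≠ 0
  M0_ne : N.M0 p ≠ 0
  X_ne : ∀ n, n < L → N.X n p (aP far N L p x n) ≠ 0
  M_ne : ∀ n, n < L → N.M n p (aP far N L p x n) ≠ 0
  g0 : 1 - N.X0 p * x 0 ∈ slitPlane
  F0 : fF (N.C0 p) (1 - N.X0 p * x 0) ∈ slitPlane
  w0 : 1 - rho e κ (fF (N.C0 p) (1 - N.X0 p * x 0)) ^ 2 * (1 - tanh (κ * p) ^ 2) ∈ slitPlane
  rad0 : rad0F e κ p (N.C0 p) (1 - N.X0 p * x 0) ∈ slitPlane
  rH : radH e κ p (fF (N.C0 p) (1 - N.X0 p * x 0)) ∈ slitPlane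
  re : ∀ n, n < L → 0 < (aP far N L p x n).re
  dom : ∀ n, n < L → (p, aP far N L p x n) ∈ N.S n
  g : ∀ n, n < L → 1 - N.X n p (aP far N L p x n) * x (n + 1) ∈ slitPlane
  F : ∀ n, n < L → fF (N.C n p (aP far N L p x n))
    (1 - N.X n p (aP far N L p x n) * x (n + 1)) ∈ slitPlane
  rad : ∀ n, n < L → radF e κ (aP far N L p x n) (N.C n p (aP far N L p x n))
    (1 - N.X n p (aP far N L p x n) * x (n + 1)) ∈ slitPlane
  ent : aP far N L p x L ∈ far.Ω p 0
  close : ∀ n, n < L + 1 → ‖aPhi far N L p x n‖ < θ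

/-- The condition `|ρ| < 1` (only used for real starts). -/
def RPt (e κ : ℝ) (N : NearN) (p : ℂ) (x0 : ℂ) : Prop :=
  ‖rho e κ (fF (N.C0 p) (1 - N.X0 p * x0))‖ < 1

private theorem ev_slit {X : Type*} [TopologicalSpace X] {q : X} {f : X → ℂ}
    (hf : ContinuousAt f q) (h : f q ∈ slitPlane) : ∀ᶠ x in 𝓝 q, f x ∈ slitPlane :=
  hf.eventually (isOpen_slitPlane.mem_nhds h)

private theorem ev_re {X : Type*} [TopologicalSpace X] {q : X} {f : X → ℂ}
    (hf : ContinuousAt f q) (h : 0 < (f q).re) : ∀ᶠ x in 𝓝 q, 0 < (f x).re := by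
  have h1 : ContinuousAt (fun x => (f x).re) q := (Complex.continuous_re.continuousAt).comp hf
  exact h1.eventually (isOpen_Ioi.mem_nhds h)

private theorem ev_lt {X : Type*} [TopologicalSpace X] {q : X} {f : X → ℂ} {t : ℝ}
    (hf : ContinuousAt f q) (h : ‖f q‖ < t) : ∀ᶠ x in 𝓝 q, ‖f x‖ < t :=
  hf.norm.eventually (isOpen_Iio.mem_nhds h)

private theorem ev_all {X : Type*} {l : Filter X} {P : ℕ → X → Prop} (L : ℕ)
    (h : ∀ n, n < L → ∀ᶠ x in l, P n x) : ∀ᶠ x in l, ∀ n, n < L → P n x := by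
  induction L with
  | zero => exact Eventually.of_forall fun x n hn => absurd hn (Nat.not_lt_zero n)
  | succ L ih =>
    have h1 := ih (fun n hn => h n (by omega))
    have h2 := h L (by omega)
    filter_upwards [h1, h2] with x hx1 hx2 n hn
    rcases Nat.lt_succ_iff_lt_or_eq.1 hn with h3 | h3
    · exact hx1 n h3
    · rw [h3]
      exact hx2

private theorem fst_cont {D : Set ℂ} (hD : IsOpen D) {f : ℂ → ℂ}
    (hf : DifferentiableOn ℂ f D) {p : ℂ} (hp : p ∈ D) {x : ℕ → ℂ} :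
    ContinuousAt (fun q : ℂ × (ℕ → ℂ) => f q.1) (p, x) :=
  ContinuousAt.comp (f := fun q : ℂ × (ℕ → ℂ) => q.1) (g := f)
    ((hf p hp).differentiableAt (hD.mem_nhds hp)).continuousAt continuousAt_fst

section open'

variable {far : FarF e κ θ} {N : NearN} {L : ℕ} {p : ℂ} {x : ℕ → ℂ}

private theorem cont_x (n : ℕ) : ContinuousAt (fun q : ℂ × (ℕ → ℂ) => q.2 n) (p, x) := by
  have h1 : Continuous (fun q : ℂ × (ℕ → ℂ) => q.2 n) := (continuous_apply n).comp continuous_snd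
  exact h1.continuousAt

/-- continuity of the positions -/
theorem cont_aP (hκ : 0 < κ) (h : NPt far N L p x) : ∀ n, n ≤ L →
    ContinuousAt (fun q : ℂ × (ℕ → ℂ) => aP far N L q.1 q.2 n) (p, x) := by
  intro n
  induction n with
  | zero =>
    intro _
    have cp : ContinuousAt (fun q : ℂ × (ℕ → ℂ) => q.1) (p, x) := continuousAt_fst
    have cC0 := fst_cont N.isOpen_DN N.C0_diff h.memN (x := x)
    have cX0 := fst_cont N.isOpen_DN N.X0_diff h.memN (x := x)
    have cg0 : ContinuousAt (fun q : ℂ × (ℕ → ℂ) => 1 - N.X0 q.1 * q.2 0) (p, x) :=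
      continuousAt_const.sub (cX0.mul (cont_x 0))
    exact cont_step0F hκ cp cC0 cg0 h.strip h.g0 h.F0 h.w0 h.rad0
  | succ n ih =>
    intro hn
    have hl : n < L := hn
    have c1 := ih hl.le
    have cp : ContinuousAt (fun q : ℂ × (ℕ → ℂ) => q.1) (p, x) := continuousAt_fst
    have cpair : ContinuousAt (fun q : ℂ × (ℕ → ℂ) => ((q.1, aP far N L q.1 q.2 n) : ℂ × ℂ))
      (p, x) := cp.prodMk c1
    have cC : ContinuousAt (fun q : ℂ × (ℕ → ℂ) => N.C n q.1 (aP far N L q.1 q.2 n)) (p, x) :=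
      ContinuousAt.comp (f := fun q : ℂ × (ℕ → ℂ) => ((q.1, aP far N L q.1 q.2 n) : ℂ × ℂ))
        (g := fun q : ℂ × ℂ => N.C n q.1 q.2)
        (N.C_diff n p _ (h.dom n hl)).continuousAt cpair
    have cX : ContinuousAt (fun q : ℂ × (ℕ → ℂ) => N.X n q.1 (aP far N L q.1 q.2 n)) (p, x) :=
      ContinuousAt.comp (f := fun q : ℂ × (ℕ → ℂ) => ((q.1, aP far N L q.1 q.2 n) : ℂ × ℂ))
        (g := fun q : ℂ × ℂ => N.X n q.1 q.2)
        (N.X_diff n p _ (h.dom n hl)).continuousAt cpair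
    have cg : ContinuousAt (fun q : ℂ × (ℕ → ℂ) =>
        1 - N.X n q.1 (aP far N L q.1 q.2 n) * q.2 (n + 1)) (p, x) :=
      continuousAt_const.sub (cX.mul (cont_x (n + 1)))
    have := cont_stepF hκ c1 cC cg (h.re n hl) (h.g n hl) (h.F n hl) (h.rad n hl)
    refine this.congr (Eventually.of_forall fun q => ?_)
    exact (aP_succ hl).symm

/-- continuity of the values -/
theorem cont_aV (hκ : 0 < κ) (h : NPt far N L p x) : ∀ n, n ≤ L →
    ContinuousAt (fun q : ℂ × (ℕ → ℂ) => aV far N L q.1 q.2 n) (p, x) := by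
  intro n hn
  have c1 := cont_aP hκ h n hn
  have cp : ContinuousAt (fun q : ℂ × (ℕ → ℂ) => q.1) (p, x) := continuousAt_fst
  have cpair : ContinuousAt (fun q : ℂ × (ℕ → ℂ) => ((q.1, aP far N L q.1 q.2 n) : ℂ × ℂ))
    (p, x) := cp.prodMk c1
  rcases lt_or_eq_of_le hn with hl | hl
  · have cC : ContinuousAt (fun q : ℂ × (ℕ → ℂ) => N.C n q.1 (aP far N L q.1 q.2 n)) (p, x) :=
      ContinuousAt.comp (f := fun q : ℂ × (ℕ → ℂ) => ((q.1, aP far N L q.1 q.2 n) : ℂ × ℂ))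
        (g := fun q : ℂ × ℂ => N.C n q.1 q.2)
        (N.C_diff n p _ (h.dom n hl)).continuousAt cpair
    have cX : ContinuousAt (fun q : ℂ × (ℕ → ℂ) => N.X n q.1 (aP far N L q.1 q.2 n)) (p, x) :=
      ContinuousAt.comp (f := fun q : ℂ × (ℕ → ℂ) => ((q.1, aP far N L q.1 q.2 n) : ℂ × ℂ))
        (g := fun q : ℂ × ℂ => N.X n q.1 q.2)
        (N.X_diff n p _ (h.dom n hl)).continuousAt cpair
    have cg : ContinuousAt (fun q : ℂ × (ℕ → ℂ) =>
        1 - N.X n q.1 (aP far N L q.1 q.2 n) * q.2 (n + 1)) (p, x) :=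
      continuousAt_const.sub (cX.mul (cont_x (n + 1)))
    refine (cont_fF cC cg).congr (Eventually.of_forall fun q => ?_)
    exact (aV_lt hl).symm
  · subst hl
    have cC : ContinuousAt (fun q : ℂ × (ℕ → ℂ) => far.C q.1 0 (aP far N n q.1 q.2 n)) (p, x) :=
      ContinuousAt.comp (f := fun q : ℂ × (ℕ → ℂ) => ((q.1, aP far N n q.1 q.2 n) : ℂ × ℂ))
        (g := fun q : ℂ × ℂ => far.C q.1 0 q.2)
        (far.C_diff p h.mem 0 _ h.ent).continuousAt cpair
    have cv : ContinuousAt (fun q : ℂ × (ℕ → ℂ) => far.v q.1 0 (aP far N n q.1 q.2 n)) (p, x) :=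
      ContinuousAt.comp (f := fun q : ℂ × (ℕ → ℂ) => ((q.1, aP far N n q.1 q.2 n) : ℂ × ℂ))
        (g := fun q : ℂ × ℂ => far.v q.1 0 q.2)
        (far.v_diff p h.mem 0 _ h.ent).continuousAt cpair
    have cr : ContinuousAt (fun q : ℂ × (ℕ → ℂ) => far.r q.1 0 (aP far N n q.1 q.2 n)) (p, x) :=
      ContinuousAt.comp (f := fun q : ℂ × (ℕ → ℂ) => ((q.1, aP far N n q.1 q.2 n) : ℂ × ℂ))
        (g := fun q : ℂ × ℂ => far.r q.1 0 q.2)
        (far.r_diff p h.mem 0 _ h.ent).continuousAt cpair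
    refine (cont_fF cC (cv.sub (cr.mul (cont_x (n + 1))))).congr
      (Eventually.of_forall fun q => ?_)
    exact aV_last.symm

/-- all near positions have positive real part -/
theorem NPt.re' (h : NPt far N L p x) {n : ℕ} (hn : n ≤ L) : 0 < (aP far N L p x n).re := by
  rcases lt_or_eq_of_le hn with hl | hl
  · exact h.re n hl
  · rw [hl]
    exact far.Ω_re p h.mem 0 _ h.ent

/-- continuity of the sequence map -/
theorem cont_aPhi (hκ : 0 < κ) (h : NPt far N L p x) : ∀ n, n ≤ L →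
    ContinuousAt (fun q : ℂ × (ℕ → ℂ) => aPhi far N L q.1 q.2 n) (p, x) := by
  intro n hn
  have c1 : ContinuousAt (fun _ : ℂ × (ℕ → ℂ) => (1 : ℂ)) (p, x) := continuousAt_const
  rcases n with _ | n
  · have cC0 := fst_cont N.isOpen_DN N.C0_diff h.memN (x := x)
    have cX0 := fst_cont N.isOpen_DN N.X0_diff h.memN (x := x)
    have cM0 := fst_cont N.isOpen_DN N.M0_diff h.memN (x := x)
    have cl := cont_lawF (e := e) hκ cC0 c1 cX0 (cont_aP hκ h 0 hn) (cont_aV hκ h 0 hn) h.X0_ne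
      (h.re' hn)
    exact (cont_x 0).sub (cM0.mul ((cont_x 0).sub cl))
  · have hl : n < L := hn
    have cp : ContinuousAt (fun q : ℂ × (ℕ → ℂ) => q.1) (p, x) := continuousAt_fst
    have cpair : ContinuousAt (fun q : ℂ × (ℕ → ℂ) => ((q.1, aP far N L q.1 q.2 n) : ℂ × ℂ))
      (p, x) := cp.prodMk (cont_aP hκ h n hl.le)
    have cX : ContinuousAt (fun q : ℂ × (ℕ → ℂ) => N.X n q.1 (aP far N L q.1 q.2 n)) (p, x) :=
      ContinuousAt.comp (f := fun q : ℂ × (ℕ → ℂ) => ((q.1, aP far N L q.1 q.2 n) : ℂ × ℂ))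
        (g := fun q : ℂ × ℂ => N.X n q.1 q.2)
        (N.X_diff n p _ (h.dom n hl)).continuousAt cpair
    have cM : ContinuousAt (fun q : ℂ × (ℕ → ℂ) => N.M n q.1 (aP far N L q.1 q.2 n)) (p, x) :=
      ContinuousAt.comp (f := fun q : ℂ × (ℕ → ℂ) => ((q.1, aP far N L q.1 q.2 n) : ℂ × ℂ))
        (g := fun q : ℂ × ℂ => N.M n q.1 q.2)
        (N.M_diff n p _ (h.dom n hl)).continuousAt cpair
    have cC : ContinuousAt (fun q : ℂ × (ℕ → ℂ) => N.C n q.1 (aP far N L q.1 q.2 n)) (p, x) :=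
      ContinuousAt.comp (f := fun q : ℂ × (ℕ → ℂ) => ((q.1, aP far N L q.1 q.2 n) : ℂ × ℂ))
        (g := fun q : ℂ × ℂ => N.C n q.1 q.2)
        (N.C_diff n p _ (h.dom n hl)).continuousAt cpair
    have cl := cont_lawF (e := e) hκ cC c1 cX (cont_aP hκ h (n + 1) hn)
      (cont_aV hκ h (n + 1) hn) (h.X_ne n hl) (h.re' hn)
    refine ((cont_x (n + 1)).sub (cM.mul ((cont_x (n + 1)).sub cl))).congr
      (Eventually.of_forall fun q => ?_)
    exact (aPhi_succ hl).symm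

/-- **Openness.** -/
theorem nPt_open (hκ : 0 < κ) (h : NPt far N L p x) :
    ∀ᶠ q : ℂ × (ℕ → ℂ) in 𝓝 (p, x), NPt far N L q.1 q.2 := by
  have hO := far.isOpen_DF
  have hN := N.isOpen_DN
  have cp : ContinuousAt (fun q : ℂ × (ℕ → ℂ) => q.1) (p, x) := continuousAt_fst
  have cC0 := fst_cont hN N.C0_diff h.memN (x := x)
  have cX0 := fst_cont hN N.X0_diff h.memN (x := x)
  have cM0 := fst_cont hN N.M0_diff h.memN (x := x)
  have cg0 : ContinuousAt (fun q : ℂ × (ℕ → ℂ) => 1 - N.X0 q.1 * q.2 0) (p, x) :=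
    continuousAt_const.sub (cX0.mul (cont_x 0))
  have cF0 := cont_fF cC0 cg0
  have crho : ContinuousAt (fun q : ℂ × (ℕ → ℂ) =>
      rho e κ (fF (N.C0 q.1) (1 - N.X0 q.1 * q.2 0))) (p, x) := cont_rho hκ cF0 h.F0
  have cth : ContinuousAt (fun q : ℂ × (ℕ → ℂ) => tanh (κ * q.1)) (p, x) :=
    ContinuousAt.comp (f := fun q : ℂ × (ℕ → ℂ) => q.1) (tanh_cont hκ h.strip) cp
  have cw0 : ContinuousAt (fun q : ℂ × (ℕ → ℂ) =>
      1 - rho e κ (fF (N.C0 q.1) (1 - N.X0 q.1 * q.2 0)) ^ 2 * (1 - tanh (κ * q.1) ^ 2)) (p, x) :=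
    continuousAt_const.sub ((crho.pow 2).mul (continuousAt_const.sub (cth.pow 2)))
  have crad0 := cont_rad0F (e := e) hκ cp cC0 cg0 h.strip h.g0 h.F0 h.w0
  have crH := cont_radH (e := e) hκ cp cC0 cg0 h.strip h.F0 h.w0
  have cim : ContinuousAt (fun q : ℂ × (ℕ → ℂ) => |q.1.im|) (p, x) := by
    have h1 : Continuous (fun q : ℂ × (ℕ → ℂ) => |q.1.im|) :=
      (Complex.continuous_im.comp continuous_fst).abs
    exact h1.continuousAt
  have cpair : ∀ n, n ≤ L → ContinuousAt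
      (fun q : ℂ × (ℕ → ℂ) => ((q.1, aP far N L q.1 q.2 n) : ℂ × ℂ)) (p, x) :=
    fun n hn => cp.prodMk (cont_aP hκ h n hn)
  have ent : ∀ᶠ q : ℂ × (ℕ → ℂ) in 𝓝 (p, x), ((q.1, aP far N L q.1 q.2 L) : ℂ × ℂ) ∈
        {q : ℂ × ℂ | q.1 ∈ far.DF ∧ q.2 ∈ far.Ω q.1 0} :=
    (cpair L le_rfl).eventually (far.isOpen_entry.mem_nhds ⟨h.mem, h.ent⟩)
  have cX : ∀ n, n < L →
      ContinuousAt (fun q : ℂ × (ℕ → ℂ) => N.X n q.1 (aP far N L q.1 q.2 n)) (p, x) :=
    fun n hn => ContinuousAt.comp (f := fun q : ℂ × (ℕ → ℂ) =>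
      ((q.1, aP far N L q.1 q.2 n) : ℂ × ℂ)) (g := fun q : ℂ × ℂ => N.X n q.1 q.2)
      (N.X_diff n p _ (h.dom n hn)).continuousAt (cpair n hn.le)
  have cM : ∀ n, n < L →
      ContinuousAt (fun q : ℂ × (ℕ → ℂ) => N.M n q.1 (aP far N L q.1 q.2 n)) (p, x) :=
    fun n hn => ContinuousAt.comp (f := fun q : ℂ × (ℕ → ℂ) =>
      ((q.1, aP far N L q.1 q.2 n) : ℂ × ℂ)) (g := fun q : ℂ × ℂ => N.M n q.1 q.2)
      (N.M_diff n p _ (h.dom n hn)).continuousAt (cpair n hn.le)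
  have cC : ∀ n, n < L →
      ContinuousAt (fun q : ℂ × (ℕ → ℂ) => N.C n q.1 (aP far N L q.1 q.2 n)) (p, x) :=
    fun n hn => ContinuousAt.comp (f := fun q : ℂ × (ℕ → ℂ) =>
      ((q.1, aP far N L q.1 q.2 n) : ℂ × ℂ)) (g := fun q : ℂ × ℂ => N.C n q.1 q.2)
      (N.C_diff n p _ (h.dom n hn)).continuousAt (cpair n hn.le)
  have cg : ∀ n, n < L → ContinuousAt (fun q : ℂ × (ℕ → ℂ) =>
      1 - N.X n q.1 (aP far N L q.1 q.2 n) * q.2 (n + 1)) (p, x) :=
    fun n hn => continuousAt_const.sub ((cX n hn).mul (cont_x (n + 1)))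
  filter_upwards [cp.eventually (hN.mem_nhds h.memN), cp.eventually (hO.mem_nhds h.mem),
    cim.eventually (isOpen_Iio.mem_nhds h.strip),
    cX0.eventually (isOpen_ne.mem_nhds h.X0_ne), cM0.eventually (isOpen_ne.mem_nhds h.M0_ne),
    ev_all L (fun n hn => (cX n hn).eventually (isOpen_ne.mem_nhds (h.X_ne n hn))),
    ev_all L (fun n hn => (cM n hn).eventually (isOpen_ne.mem_nhds (h.M_ne n hn))),
    ev_slit cg0 h.g0, ev_slit cF0 h.F0, ev_slit cw0 h.w0, ev_slit crad0 h.rad0, ev_slit crH h.rH,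
    ev_all L (fun n hn => ev_re (cont_aP hκ h n hn.le) (h.re n hn)),
    ev_all L (fun n hn => (cpair n hn.le).eventually ((N.isOpen_S n).mem_nhds (h.dom n hn))),
    ev_all L (fun n hn => ev_slit (cg n hn) (h.g n hn)),
    ev_all L (fun n hn => ev_slit (cont_fF (cC n hn) (cg n hn)) (h.F n hn)),
    ev_all L (fun n hn => ev_slit (cont_radF (e := e) hκ (cont_aP hκ h n hn.le) (cC n hn)
      (cg n hn) (h.re n hn) (h.g n hn) (h.F n hn)) (h.rad n hn)), ent,
    ev_all (L + 1) (fun n hn => ev_lt (cont_aPhi hκ h n (Nat.lt_succ_iff.1 hn)) (h.close n hn))]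
    with q a1 a2 a3 a4 a5 a6 a7 a8 a9 a10 a11 a12 a13 b13 a14 a15 a16 a17 a18
  exact ⟨a1, a2, a3, a4, a5, a6, a7, a8, a9, a10, a11, a12, a13, b13, a14, a15, a16, a17.2, a18⟩

end open'

section cj

variable {far : FarF e κ θ} {N : NearN} {L : ℕ} {p : ℂ} {x : ℕ → ℂ}

private theorem cj_g (hX : ∀ p ∈ N.DN, N.X0 (conj p) = conj (N.X0 p)) (hp : p ∈ N.DN) (y : ℂ) :
    1 - N.X0 (conj p) * conj y = conj (1 - N.X0 p * y) := by
  rw [hX p hp, map_sub, map_one, map_mul]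

private theorem cj_gn (n : ℕ) {τ : ℂ} (hp : (p, τ) ∈ N.S n) (y : ℂ) :
    1 - N.X n (conj p) (conj τ) * conj y = conj (1 - N.X n p τ * y) := by
  rw [N.X_conj n p τ hp, map_sub, map_one, map_mul]

theorem conj_aP (hκ : 0 < κ) (h : NPt far N L p x) : ∀ n, n ≤ L →
    aP far N L (conj p) (fun k => conj (x k)) n = conj (aP far N L p x n) := by
  intro n
  induction n with
  | zero =>
    intro _
    rw [aP_zero, aP_zero, cj_g N.X0_conj h.memN, N.C0_conj p h.memN,
      conj_step0F hκ h.g0 h.F0 h.w0 h.rad0]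
  | succ n ih =>
    intro hn
    have hl : n < L := hn
    rw [aP_succ hl, aP_succ hl, ih hl.le, cj_gn n (h.dom n hl), N.C_conj n p _ (h.dom n hl),
      conj_stepF hκ (h.g n hl) (h.F n hl) (h.rad n hl)]

theorem conj_aV (hκ : 0 < κ) (h : NPt far N L p x) : ∀ n, n ≤ L →
    aV far N L (conj p) (fun k => conj (x k)) n = conj (aV far N L p x n) := by
  intro n hn
  rcases lt_or_eq_of_le hn with hl | hl
  · rw [aV_lt hl, aV_lt hl, conj_aP hκ h n hn, cj_gn n (h.dom n hl),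
      N.C_conj n p _ (h.dom n hl), conj_fF]
  · subst hl
    rw [aV_last, aV_last, conj_aP hκ h n hn, far.C_conj p h.mem _ h.ent,
      far.v_conj p h.mem _ h.ent, far.r_conj p h.mem _ h.ent, ← map_mul, ← map_sub, conj_fF]

theorem conj_aPhi (hκ : 0 < κ) (h : NPt far N L p x) : ∀ n, n ≤ L →
    aPhi far N L (conj p) (fun k => conj (x k)) n = conj (aPhi far N L p x n) := by
  intro n hn
  have one : (1 : ℂ) = conj (1 : ℂ) := (map_one _).symm
  rcases n with _ | n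
  · rw [aPhi_zero, aPhi_zero, conj_aP hκ h 0 hn, conj_aV hκ h 0 hn, N.C0_conj p h.memN,
      N.X0_conj p h.memN, N.M0_conj p h.memN, one, conj_lawF hκ (h.re' hn), ← one, ← map_sub,
      ← map_mul, ← map_sub]
  · have hl : n < L := hn
    rw [aPhi_succ hl, aPhi_succ hl, conj_aP hκ h n hl.le, conj_aP hκ h (n + 1) hn,
      conj_aV hκ h (n + 1) hn, N.C_conj n p _ (h.dom n hl), N.X_conj n p _ (h.dom n hl),
      N.M_conj n p _ (h.dom n hl), one, conj_lawF hκ (h.re' hn), ← one, ← map_sub,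
      ← map_mul, ← map_sub]

/-- **Conjugation.** -/
theorem nPt_conj (hκ : 0 < κ) (h : NPt far N L p x) :
    NPt far N L (conj p) (fun k => conj (x k)) := by
  have cne : ∀ z : ℂ, z ≠ 0 → conj z ≠ 0 := fun z hz => (map_ne_zero _).2 hz
  have hg0 := cj_g N.X0_conj h.memN (x 0)
  have hC0 := N.C0_conj p h.memN
  have hF0 : fF (N.C0 (conj p)) (1 - N.X0 (conj p) * conj (x 0)) =
      conj (fF (N.C0 p) (1 - N.X0 p * x 0)) := by rw [hg0, hC0, conj_fF]
  refine ⟨N.conj_DN p h.memN, far.conj_DF p h.mem, ?_, ?_, ?_, ?_, ?_, ?_, ?_, ?_, ?_, ?_, ?_, ?_,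
    ?_, ?_, ?_, ?_, ?_⟩
  · rw [conj_im, abs_neg]
    exact h.strip
  · rw [N.X0_conj p h.memN]
    exact cne _ h.X0_ne
  · rw [N.M0_conj p h.memN]
    exact cne _ h.M0_ne
  · intro n hn
    rw [conj_aP hκ h n hn.le, N.X_conj n p _ (h.dom n hn)]
    exact cne _ (h.X_ne n hn)
  · intro n hn
    rw [conj_aP hκ h n hn.le, N.M_conj n p _ (h.dom n hn)]
    exact cne _ (h.M_ne n hn)
  · rw [hg0]
    exact slit_conj h.g0
  · rw [hF0]
    exact slit_conj h.F0
  · rw [hF0, conj_rho hκ h.F0, conj_tanh]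
    have := slit_conj h.w0
    simpa only [map_sub, map_one, map_mul, map_pow] using this
  · rw [hg0, hC0, conj_rad0F hκ h.g0 h.F0 h.w0]
    exact slit_conj h.rad0
  · rw [hF0, conj_radH hκ h.F0 h.w0]
    exact slit_conj h.rH
  · intro n hn
    rw [conj_aP hκ h n hn.le, conj_re]
    exact h.re n hn
  · intro n hn
    rw [conj_aP hκ h n hn.le]
    exact N.conj_S n p _ (h.dom n hn)
  · intro n hn
    rw [conj_aP hκ h n hn.le, cj_gn n (h.dom n hn)]
    exact slit_conj (h.g n hn)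
  · intro n hn
    rw [conj_aP hκ h n hn.le, cj_gn n (h.dom n hn), N.C_conj n p _ (h.dom n hn), conj_fF]
    exact slit_conj (h.F n hn)
  · intro n hn
    rw [conj_aP hκ h n hn.le, cj_gn n (h.dom n hn), N.C_conj n p _ (h.dom n hn),
      conj_radF hκ (h.g n hn) (h.F n hn)]
    exact slit_conj (h.rad n hn)
  · rw [conj_aP hκ h L le_rfl]
    exact far.conj_entry p h.mem _ h.ent
  · intro n hn
    rw [conj_aPhi hκ h n (Nat.lt_succ_iff.1 hn), norm_conj]
    exact h.close n hn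

end cj

/-- the polydisc of sequences -/
def KK : Set (ℕ → ℂ) := {x | ∀ n, ‖x n‖ ≤ 1}

theorem isCompact_KK : IsCompact KK := by
  have h : KK = Set.pi univ (fun _ : ℕ => closedBall (0 : ℂ) 1) := by
    ext x
    simp only [KK, mem_ofPred_eq, Set.mem_pi, mem_univ, forall_true_left, mem_closedBall_zero_iff]
  rw [h]
  exact isCompact_univ_pi (fun _ => isCompact_closedBall 0 1)

theorem zero_mem_KK : (fun _ => 0 : ℕ → ℂ) ∈ KK := fun n => by simp

/-- The domain of starts. -/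
def DB (far : FarF e κ θ) (N : NearN) (L : ℕ) : Set ℂ :=
  {p | (∀ᶠ p' in 𝓝 p, ∀ x ∈ KK, NPt far N L p' x) ∧
    ∀ᶠ p' : ℂ in 𝓝 p, p'.im = 0 → ∀ x0 ∈ closedBall (0 : ℂ) 1, RPt e κ N p' x0}

theorem isOpen_DB (far : FarF e κ θ) (N : NearN) (L : ℕ) : IsOpen (DB far N L) := by
  rw [isOpen_iff_mem_nhds]
  intro p hp
  filter_upwards [eventually_eventually_nhds.2 hp.1, eventually_eventually_nhds.2 hp.2]
    with q h1 h2
  exact ⟨h1, h2⟩

theorem DB_near {far : FarF e κ θ} {N : NearN} {L : ℕ} {p : ℂ} (hp : p ∈ DB far N L)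
    {x : ℕ → ℂ} (hx : x ∈ KK) : NPt far N L p x := hp.1.self_of_nhds x hx

theorem DB_rho {far : FarF e κ θ} {N : NearN} {L : ℕ} {p : ℂ} (hp : p ∈ DB far N L)
    (hi : p.im = 0) {x : ℂ} (hx : ‖x‖ ≤ 1) :
    ‖rho e κ (fF (N.C0 p) (1 - N.X0 p * x))‖ < 1 := by
  obtain ⟨_, h2⟩ := hp
  have h3 : p.im = 0 → ∀ x0 ∈ closedBall (0 : ℂ) 1, RPt e κ N p x0 := mem_of_mem_nhds h2
  exact h3 hi x (mem_closedBall_zero_iff.2 hx)

theorem mem_DB (hκ : 0 < κ) {far : FarF e κ θ} {N : NearN} {L : ℕ} {p : ℂ}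
    (h : ∀ x ∈ KK, NPt far N L p x)
    (h0 : p.im = 0 → ∀ x0 : ℂ, ‖x0‖ ≤ 1 → RPt e κ N p x0) : p ∈ DB far N L := by
  constructor
  · exact isCompact_KK.eventually_forall_of_forall_eventually (fun x hx => nPt_open hκ (h x hx))
  · by_cases hi : p.im = 0
    · have h1 : ∀ᶠ p' in 𝓝 p, ∀ x0 ∈ closedBall (0 : ℂ) 1, RPt e κ N p' x0 := by
        apply (isCompact_closedBall (0 : ℂ) 1).eventually_forall_of_forall_eventually
        intro x0 hx0
        have hx0' : ‖x0‖ ≤ 1 := mem_closedBall_zero_iff.1 hx0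
        have hn := h (fun _ => x0) (fun _ => hx0')
        have hO := N.isOpen_DN
        have cC0 : ContinuousAt (fun q : ℂ × ℂ => N.C0 q.1) (p, x0) :=
          ContinuousAt.comp (f := fun q : ℂ × ℂ => q.1) (g := N.C0)
            ((N.C0_diff p hn.memN).differentiableAt (hO.mem_nhds hn.memN)).continuousAt
            continuousAt_fst
        have cX0 : ContinuousAt (fun q : ℂ × ℂ => N.X0 q.1) (p, x0) :=
          ContinuousAt.comp (f := fun q : ℂ × ℂ => q.1) (g := N.X0)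
            ((N.X0_diff p hn.memN).differentiableAt (hO.mem_nhds hn.memN)).continuousAt
            continuousAt_fst
        have cg0 : ContinuousAt (fun q : ℂ × ℂ => 1 - N.X0 q.1 * q.2) (p, x0) :=
          continuousAt_const.sub (cX0.mul continuousAt_snd)
        have crho : ContinuousAt (fun q : ℂ × ℂ =>
            rho e κ (fF (N.C0 q.1) (1 - N.X0 q.1 * q.2))) (p, x0) :=
          cont_rho hκ (cont_fF cC0 cg0) hn.F0
        exact ev_lt crho (h0 hi x0 hx0')
      filter_upwards [h1] with q hq _ using hq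
    · have h1 : ∀ᶠ p' : ℂ in 𝓝 p, p'.im ≠ 0 :=
        Complex.continuous_im.continuousAt.eventually (isOpen_ne.mem_nhds hi)
      filter_upwards [h1] with q hq h2
      exact absurd h2 hq

/-- positions of all near nodes, then the far regions -/
def aO (far : FarF e κ θ) (N : NearN) (L : ℕ) (p : ℂ) (n : ℕ) : Set ℂ :=
  {τ | (n < L ∧ ∃ x ∈ KK, τ = aP far N L p x n) ∨ (¬ n < L ∧ τ ∈ far.Ω p (n - L))}

private theorem real_of_conj {f : ℂ → ℂ} {D : Set ℂ} (h : ∀ p ∈ D, f (conj p) = conj (f p))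
    {p : ℝ} (hp : (p : ℂ) ∈ D) : (f p).im = 0 := by
  have h1 := h _ hp
  rw [conj_ofReal] at h1
  exact conj_eq_iff_im.1 h1.symm

private theorem upd_KK {x : ℕ → ℂ} (hx : x ∈ KK) (n : ℕ) {y : ℂ} (hy : ‖y‖ ≤ 1) :
    Function.update x n y ∈ KK := by
  intro k
  by_cases hk : k = n
  · rw [hk, Function.update_self]
    exact hy
  · rw [Function.update_of_ne hk]
    exact hx k

/-- replace the entries `n + 1` and `n + 2` -/
private theorem two_KK {x : ℕ → ℂ} (hx : x ∈ KK) (n : ℕ) {y z : ℂ} (hy : ‖y‖ ≤ 1)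
    (hz : ‖z‖ ≤ 1) : ∃ w ∈ KK, (∀ k, k ≤ n → w k = x k) ∧ w (n + 1) = y ∧ w (n + 2) = z := by
  refine ⟨Function.update (Function.update x (n + 1) y) (n + 2) z,
    upd_KK (upd_KK hx _ hy) _ hz, ?_, ?_, ?_⟩
  · intro k hk
    rw [Function.update_of_ne (by omega), Function.update_of_ne (by omega)]
  · rw [Function.update_of_ne (by omega), Function.update_self]
  · rw [Function.update_self]

/-- **Assembly.** -/
theorem nonempty_RDataF_N (hκ : 0 < κ) (hθ0 : 0 ≤ θ) (hθ1 : θ < 1) (far : FarF e κ θ)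
    (N : NearN) (L : ℕ) {η : ℝ} (hη : 0 < η)
    (hseg : ∀ y : ℝ, 0 ≤ y → y ≤ η → ∀ x ∈ KK, NPt far N L ((y : ℂ) * I) x)
    (h0 : ∀ x0 : ℂ, ‖x0‖ ≤ 1 → RPt e κ N 0 x0)
    (test : ∀ x ∈ KK, (∀ n, x n = aPhi far N L ((η : ℂ) * I) x n) →
      (H0 e κ ((η : ℂ) * I)
        (fF (N.C0 ((η : ℂ) * I)) (1 - N.X0 ((η : ℂ) * I) * x 0))).re ≠ 1 / 2) :
    Nonempty (RDataF e κ) := by
  have zK := zero_mem_KK
  have cK : ∀ {y : ℂ}, ‖y‖ ≤ 1 → (fun _ => y : ℕ → ℂ) ∈ KK := fun hy _ => hy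
  have hmemF : ∀ p ∈ DB far N L, p ∈ far.DF := fun p hp => (DB_near hp zK).mem
  have hmemN : ∀ p ∈ DB far N L, p ∈ N.DN := fun p hp => (DB_near hp zK).memN
  have hsegD : ∀ y : ℝ, |y| ≤ η → ((y : ℂ) * I) ∈ DB far N L := by
    have hr0 : ∀ y : ℝ, ((y : ℂ) * I).im = 0 → ∀ x0 : ℂ, ‖x0‖ ≤ 1 → RPt e κ N ((y : ℂ) * I) x0 := by
      intro y hi x hx
      have hy0 : y = 0 := by simpa using hi
      rw [hy0, ofReal_zero, zero_mul]
      exact h0 x hx
    intro y hy
    rcases le_total 0 y with h | h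
    · exact mem_DB hκ (hseg y h (le_trans (le_abs_self y) hy)) (hr0 y)
    · have h2 : -y ≤ η := le_trans (neg_le_abs y) hy
      have h3 := hseg (-y) (by linarith) h2
      have e1 : (y : ℂ) * I = conj (((-y : ℝ) : ℂ) * I) := by
        rw [map_mul, conj_ofReal, conj_I]
        push_cast
        ring
      refine mem_DB hκ ?_ (hr0 y)
      intro x hx
      have h4 := nPt_conj hκ (h3 (fun k => conj (x k)) (fun k => by rw [norm_conj]; exact hx k))
      simp only [conj_conj] at h4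
      rw [← e1] at h4
      exact h4
  refine ⟨{
    θ := θ
    hθ0 := hθ0
    hθ1 := hθ1
    D := DB far N L
    isOpen_D := isOpen_DB far N L
    D_strip := fun p hp => (DB_near hp zK).strip
    Ω := aO far N L
    Ω_re := ?_
    C0 := N.C0
    v0 := fun _ => 1
    r0 := N.X0
    C := aC far N L
    v := av far L
    r := ar far N L
    M0 := N.M0
    M := aM N L
    C0_diff := N.C0_diff.mono hmemN
    v0_diff := differentiableOn_const _
    r0_diff := N.X0_diff.mono hmemN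
    M0_diff := N.M0_diff.mono hmemN
    C_diff := ?_
    v_diff := ?_
    r_diff := ?_
    M_diff := ?_
    r0_ne := fun p hp => (DB_near hp zK).X0_ne
    r_ne := ?_
    M0_ne := fun p hp => (DB_near hp zK).M0_ne
    M_ne := ?_
    C0_real := fun p hp => real_of_conj N.C0_conj (hmemN _ hp)
    v0_real := fun p _ => by simp
    r0_real := fun p hp => real_of_conj N.X0_conj (hmemN _ hp)
    M0_real := fun p hp => real_of_conj N.M0_conj (hmemN _ hp)
    C_real := ?_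
    v_real := ?_
    r_real := ?_
    M_real := ?_
    F0_slit := fun p hp x hx => (DB_near hp (cK hx)).F0
    g0_slit := fun p hp x hx => (DB_near hp (cK hx)).g0
    w0_slit := fun p hp x hx => (DB_near hp (cK hx)).w0
    rad0_slit := fun p hp x hx => (DB_near hp (cK hx)).rad0
    radH_slit := fun p hp x hx => (DB_near hp (cK hx)).rH
    rho_lt := fun p hp x hx => DB_rho hp (ofReal_im p) hx
    F_slit := ?_
    g_slit := ?_
    rad_slit := ?_
    inv0 := ?_
    inv := ?_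
    close0 := ?_
    close := ?_
    tend := ?_
    η := η
    hη := hη
    seg := hsegD
    test := test }⟩
  · rintro p hp n τ (⟨hn, x, hx, rfl⟩ | ⟨hn, hτ⟩)
    · exact (DB_near hp hx).re n hn
    · exact far.Ω_re p (hmemF p hp) _ τ hτ
  · rintro p hp n τ (⟨hn, x, hx, rfl⟩ | ⟨hn, hτ⟩)
    · have e1 : (fun q : ℂ × ℂ => aC far N L q.1 n q.2) = fun q => N.C n q.1 q.2 :=
        funext fun q => aC_lt hn
      rw [e1]
      exact N.C_diff n p _ ((DB_near hp hx).dom n hn)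
    · have e1 : (fun q : ℂ × ℂ => aC far N L q.1 n q.2) = fun q => far.C q.1 (n - L) q.2 :=
        funext fun q => aC_ge hn
      rw [e1]
      exact far.C_diff p (hmemF p hp) _ τ hτ
  · rintro p hp n τ (⟨hn, x, hx, rfl⟩ | ⟨hn, hτ⟩)
    · have e1 : (fun q : ℂ × ℂ => av far L q.1 n q.2) = fun q => 1 := funext fun q => av_lt hn
      rw [e1]
      exact differentiableAt_const _
    · have e1 : (fun q : ℂ × ℂ => av far L q.1 n q.2) = fun q => far.v q.1 (n - L) q.2 :=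
        funext fun q => av_ge hn
      rw [e1]
      exact far.v_diff p (hmemF p hp) _ τ hτ
  · rintro p hp n τ (⟨hn, x, hx, rfl⟩ | ⟨hn, hτ⟩)
    · have e1 : (fun q : ℂ × ℂ => ar far N L q.1 n q.2) = fun q => N.X n q.1 q.2 :=
        funext fun q => ar_lt hn
      rw [e1]
      exact N.X_diff n p _ ((DB_near hp hx).dom n hn)
    · have e1 : (fun q : ℂ × ℂ => ar far N L q.1 n q.2) = fun q => far.r q.1 (n - L) q.2 :=
        funext fun q => ar_ge hn
      rw [e1]
      exact far.r_diff p (hmemF p hp) _ τ hτ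
  · rintro p hp n τ (⟨hn, x, hx, rfl⟩ | ⟨hn, hτ⟩)
    · have e1 : (fun q : ℂ × ℂ => aM N L q.1 n q.2) = fun q => N.M n q.1 q.2 :=
        funext fun q => aM_lt hn
      rw [e1]
      exact N.M_diff n p _ ((DB_near hp hx).dom n hn)
    · have e1 : (fun q : ℂ × ℂ => aM N L q.1 n q.2) = fun q => 1 := funext fun q => aM_ge hn
      rw [e1]
      exact differentiableAt_const _
  · rintro p hp n τ (⟨hn, x, hx, rfl⟩ | ⟨hn, hτ⟩)
    · rw [ar_lt hn]
      exact (DB_near hp hx).X_ne n hn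
    · rw [ar_ge hn]
      exact far.r_ne p (hmemF p hp) _ τ hτ
  · rintro p hp n τ (⟨hn, x, hx, rfl⟩ | ⟨hn, hτ⟩)
    · rw [aM_lt hn]
      exact (DB_near hp hx).M_ne n hn
    · rw [aM_ge hn]
      exact one_ne_zero
  · rintro p hp n τ (⟨hn, x, hx, hτ⟩ | ⟨hn, hτ⟩)
    · rw [aC_lt hn]
      have hre := (DB_near hp hx).dom n hn
      rw [← hτ] at hre
      have h1 := N.C_conj n p _ hre
      rw [conj_ofReal, conj_ofReal] at h1
      exact conj_eq_iff_im.1 h1.symm
    · rw [aC_ge hn]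
      exact far.C_real p (hmemF _ hp) _ τ hτ
  · rintro p hp n τ (⟨hn, x, hx, hτ⟩ | ⟨hn, hτ⟩)
    · rw [av_lt hn, one_im]
    · rw [av_ge hn]
      exact far.v_real p (hmemF _ hp) _ τ hτ
  · rintro p hp n τ (⟨hn, x, hx, hτ⟩ | ⟨hn, hτ⟩)
    · rw [ar_lt hn]
      have hre := (DB_near hp hx).dom n hn
      rw [← hτ] at hre
      have h1 := N.X_conj n p _ hre
      rw [conj_ofReal, conj_ofReal] at h1
      exact conj_eq_iff_im.1 h1.symm
    · rw [ar_ge hn]
      exact far.r_real p (hmemF _ hp) _ τ hτ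
  · rintro p hp n τ (⟨hn, x, hx, hτ⟩ | ⟨hn, hτ⟩)
    · rw [aM_lt hn]
      have hre := (DB_near hp hx).dom n hn
      rw [← hτ] at hre
      have h1 := N.M_conj n p _ hre
      rw [conj_ofReal, conj_ofReal] at h1
      exact conj_eq_iff_im.1 h1.symm
    · rw [aM_ge hn, one_im]
  · rintro p hp n τ (⟨hn, y, hy, rfl⟩ | ⟨hn, hτ⟩) x hx
    · obtain ⟨w, hw, hwk, hw1, -⟩ := two_KK hy n hx (z := 0) (by simp)
      have h := (DB_near hp hw).F n hn
      rw [aP_congr n hwk, hw1] at h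
      rw [aC_lt hn, av_lt hn, ar_lt hn]
      exact h
    · rw [aC_ge hn, av_ge hn, ar_ge hn]
      exact far.F_slit p (hmemF p hp) _ τ hτ x hx
  · rintro p hp n τ (⟨hn, y, hy, rfl⟩ | ⟨hn, hτ⟩) x hx
    · obtain ⟨w, hw, hwk, hw1, -⟩ := two_KK hy n hx (z := 0) (by simp)
      have h := (DB_near hp hw).g n hn
      rw [aP_congr n hwk, hw1] at h
      rw [av_lt hn, ar_lt hn]
      exact h
    · rw [av_ge hn, ar_ge hn]
      exact far.g_slit p (hmemF p hp) _ τ hτ x hx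
  · rintro p hp n τ (⟨hn, y, hy, rfl⟩ | ⟨hn, hτ⟩) x hx
    · obtain ⟨w, hw, hwk, hw1, -⟩ := two_KK hy n hx (z := 0) (by simp)
      have h := (DB_near hp hw).rad n hn
      rw [aP_congr n hwk, hw1] at h
      rw [aC_lt hn, av_lt hn, ar_lt hn]
      exact h
    · rw [aC_ge hn, av_ge hn, ar_ge hn]
      exact far.rad_slit p (hmemF p hp) _ τ hτ x hx
  · intro p hp x hx
    by_cases hL : 0 < L
    · exact Or.inl ⟨hL, _, cK hx, rfl⟩
    · have hL0 : L = 0 := by omega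
      refine Or.inr ⟨hL, ?_⟩
      have h := (DB_near hp (cK hx)).ent
      subst hL0
      exact h
  · rintro p hp n τ (⟨hn, y, hy, rfl⟩ | ⟨hn, hτ⟩) x hx
    · obtain ⟨w, hw, hwk, hw1, -⟩ := two_KK hy n hx (z := 0) (by simp)
      have h1 : stepF e κ (aP far N L p y n) (aC far N L p n (aP far N L p y n))
          (av far L p n (aP far N L p y n) - ar far N L p n (aP far N L p y n) * x) =
          aP far N L p w (n + 1) := by
        rw [aP_succ', aP_congr n hwk, hw1]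
      rw [h1]
      by_cases hL : n + 1 < L
      · exact Or.inl ⟨hL, w, hw, rfl⟩
      · have hL0 : L = n + 1 := by omega
        refine Or.inr ⟨hL, ?_⟩
        have h := (DB_near hp hw).ent
        subst hL0
        rw [Nat.sub_self]
        exact h
    · have h := far.inv p (hmemF p hp) _ τ hτ x hx
      rw [aC_ge hn, av_ge hn, ar_ge hn]
      refine Or.inr ⟨by omega, ?_⟩
      rw [show n + 1 - L = n - L + 1 by omega]
      exact h
  · rintro p hp x x' hx hx' τ rfl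
    have hw : (fun n => if n = 0 then x else x' : ℕ → ℂ) ∈ KK := by
      intro n
      show ‖if n = 0 then x else x'‖ ≤ 1
      split_ifs
      · exact hx
      · exact hx'
    exact ((DB_near hp hw).close 0 (by omega)).le
  · rintro p hp n τ (⟨hn, y, hy, rfl⟩ | ⟨hn, hτ⟩) x x' hx hx' τ' rfl
    · obtain ⟨w, hw, hwk, hw1, hw2⟩ := two_KK hy n hx hx'
      have h := (DB_near hp hw).close (n + 1) (by omega)
      have h1 : stepF e κ (aP far N L p y n) (aC far N L p n (aP far N L p y n))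
          (av far L p n (aP far N L p y n) - ar far N L p n (aP far N L p y n) * x) =
          aP far N L p w (n + 1) := by
        rw [aP_succ', aP_congr n hwk, hw1]
      rw [aPhi_succ', aV_eq, aP_congr n hwk, hw1, show n + 1 + 1 = n + 2 from rfl, hw2] at h
      rw [h1]
      exact h.le
    · have h := far.close p (hmemF p hp) _ τ hτ x x' hx hx' _ rfl
      have hn1 : ¬ n + 1 < L := by omega
      rw [aM_ge hn, one_mul, sub_sub_cancel, aC_ge hn, av_ge hn, ar_ge hn, aC_ge hn1, av_ge hn1,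
        ar_ge hn1, show n + 1 - L = n - L + 1 by omega]
      exact h
  · intro p hp x hx hr
    have hx' : x ∈ KK := hx
    have hN := DB_near hp hx'
    have hcx : (fun k => conj (x k)) = x := funext fun n => conj_eq_iff_im.2 (hr n)
    have h3 := conj_aP hκ hN L le_rfl
    rw [hcx, conj_ofReal] at h3
    have h5 : (aP far N L p x L).im = 0 := conj_eq_iff_im.1 h3.symm
    have h6 := far.tend p (hmemF _ hp) (fun n => x (n + L + 1)) (fun n => hx _) (fun n => hr _)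
      (fun n => aP far N L p x (n + L)) (by rw [Nat.zero_add]; exact hN.ent)
      (by rw [Nat.zero_add]; exact h5) (by
        intro n
        have hn : ¬ n + L < L := by omega
        show aP far N L p x (n + 1 + L) = _
        rw [show n + 1 + L = n + L + 1 by omega, aP_succ', aC_ge hn, av_ge hn, ar_ge hn,
          show n + L - L = n by omega])
    exact (tendsto_add_atTop_iff_nat L).1 h6

/-- Assembly with the test for all `x 0`. -/
theorem nonempty_RDataF_N' (hκ : 0 < κ) (hθ0 : 0 ≤ θ) (hθ1 : θ < 1) (far : FarF e κ θ)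
    (N : NearN) (L : ℕ) {η : ℝ} (hη : 0 < η)
    (hseg : ∀ y : ℝ, 0 ≤ y → y ≤ η → ∀ x ∈ KK, NPt far N L ((y : ℂ) * I) x)
    (h0 : ∀ x0 : ℂ, ‖x0‖ ≤ 1 → RPt e κ N 0 x0)
    (test : ∀ x0 : ℂ, ‖x0‖ ≤ 1 → (H0 e κ ((η : ℂ) * I)
        (fF (N.C0 ((η : ℂ) * I)) (1 - N.X0 ((η : ℂ) * I) * x0))).re ≠ 1 / 2) :
    Nonempty (RDataF e κ) :=
  nonempty_RDataF_N hκ hθ0 hθ1 far N L hη hseg h0 (fun x hx _ => test (x 0) (hx 0))

end Pool.Agent.helper12.RP
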