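import Pool.Agent.helper31.EQ.R.DefsL
import Pool.Agent.helper31.EQ.R.Rigid
import Pool.Agent.helper12.EQL.HalfPlane

/-!
# The rigid logit `Pl τ = log (f/(1-f))` on the half plane `Re τ > 0`

`Re Pl > 0`, `exp (-Pl) = (1 - f)/f`, `Pl 1 = e κ`, Schwarz-Pick.
-/

namespace Pool.Agent.helper12.RP

open Complex ComplexConjugate Pool.Agent.helper31.EQ.Y Pool.Agent.helper31.EQ.R
open Pool.Agent.helper12.EQL

variable {e κ : ℝ}

theorem fT_ne {τ : ℂ} (he : 0 < e) (hκ : 0 < κ) (h : 0 < τ.re) : fT e κ τ ≠ 0 := by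
  intro h0
  have := half_lt_re_fT he hκ h
  rw [h0, zero_re] at this
  linarith

theorem fT_slit {τ : ℂ} (he : 0 < e) (hκ : 0 < κ) (h : 0 < τ.re) : fT e κ τ ∈ slitPlane := by
  rw [mem_slitPlane_iff]
  left
  have := half_lt_re_fT he hκ h
  linarith

theorem Qk_slit {τ : ℂ} (hκ : 0 < κ) (h : 0 < τ.re) : Qk κ τ ∈ slitPlane := by
  rw [mem_slitPlane_iff]
  left
  exact lt_of_lt_of_le (Real.cosh_pos κ) (Qk_re hκ h.le)

theorem Qk_ne {τ : ℂ} (hκ : 0 < κ) (h : 0 < τ.re) : Qk κ τ ≠ 0 :=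
  slitPlane_ne_zero (Qk_slit hκ h)

theorem exp_neg_Pl {τ : ℂ} (he : 0 < e) (hκ : 0 < κ) (h : 0 < τ.re) :
    exp (-Pl e κ τ) = (1 - fT e κ τ) / fT e κ τ := by
  have h1 := fT_ne he hκ h
  have h2 := fT_ne he hκ (shf_re hκ h.le)
  have h3 := Qk_ne hκ h
  have h4 := fT_add he hκ h
  have h5 : 1 - fT e κ τ = Qk κ τ ^ (-(e : ℂ)) * fT e κ (shf κ τ) := by
    linear_combination -h4
  rw [h5, cpow_def_of_ne_zero h3]
  unfold Pl
  rw [show -(log (fT e κ τ) - log (fT e κ (shf κ τ)) + (e : ℂ) * log (Qk κ τ)) =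
    log (Qk κ τ) * (-(e : ℂ)) + log (fT e κ (shf κ τ)) - log (fT e κ τ) by ring,
    exp_sub, exp_add, exp_log h1, exp_log h2]

theorem Pl_re_pos {τ : ℂ} (he : 0 < e) (hκ : 0 < κ) (h : 0 < τ.re) : 0 < (Pl e κ τ).re := by
  have h1 := exp_neg_Pl he hκ h
  have h2 := half_lt_re_fT he hκ h
  have h3 : ‖exp (-Pl e κ τ)‖ < 1 := by
    rw [h1, norm_div, div_lt_one (norm_pos_iff.2 (fT_ne he hκ h))]
    apply lt_of_pow_lt_pow_left₀ 2 (norm_nonneg _)
    rw [Complex.sq_norm, Complex.sq_norm, normSq_apply, normSq_apply]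
    simp only [sub_re, one_re, sub_im, one_im, zero_sub]
    nlinarith
  rw [norm_exp, neg_re, Real.exp_lt_one_iff] at h3
  linarith

theorem Pl_diff (he : 0 < e) (hκ : 0 < κ) :
    DifferentiableOn ℂ (Pl e κ) {τ : ℂ | 0 < τ.re} := by
  intro τ hτ
  have hτ' : 0 < τ.re := hτ
  have hopen : IsOpen {z : ℂ | 0 < z.re} := isOpen_lt continuous_const Complex.continuous_re
  have hf := differentiableOn_fT he hκ
  have h1 : DifferentiableAt ℂ (fT e κ) τ := (hf τ hτ').differentiableAt (hopen.mem_nhds hτ')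
  have h2 : DifferentiableAt ℂ (shf κ) τ := by
    unfold shf
    exact (differentiableAt_id.add_const _).div
      ((differentiableAt_id.const_mul _).const_add _) (shf_den hκ hτ'.le)
  have h3 := shf_re hκ hτ'.le
  have h4 : DifferentiableAt ℂ (fun z => fT e κ (shf κ z)) τ :=
    DifferentiableAt.comp τ ((hf _ h3).differentiableAt (hopen.mem_nhds h3)) h2
  have h5 : DifferentiableAt ℂ (Qk κ) τ := by
    unfold Qk
    exact (differentiableAt_id.const_mul _).const_add _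
  have h6 : DifferentiableAt ℂ (Pl e κ) τ := by
    unfold Pl
    exact ((h1.clog (fT_slit he hκ hτ')).sub (h4.clog (fT_slit he hκ h3))).add
      ((h5.clog (Qk_slit hκ hτ')).const_mul _)
  exact h6.differentiableWithinAt

theorem shf_one (hκ : 0 < κ) : shf κ 1 = 1 := by
  have h := shf_den hκ (τ := 1) (by simp)
  rw [mul_one] at h
  unfold shf
  rw [mul_one, add_comm (1 : ℂ), div_self]
  rw [add_comm]
  exact h

theorem Pl_one (he : 0 < e) (hκ : 0 < κ) : Pl e κ 1 = ((e * κ : ℝ) : ℂ) := by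
  unfold Pl
  rw [shf_one hκ, sub_self, zero_add]
  have h : Qk κ 1 = ((Real.exp κ : ℝ) : ℂ) := by
    unfold Qk
    rw [mul_one, ← ofReal_add, Real.cosh_add_sinh]
  rw [h, ← Complex.ofReal_log (Real.exp_pos κ).le, Real.log_exp]
  push_cast
  ring

/-- Schwarz-Pick at `τ = 1` (`s = ∞`). -/
theorem Pl_pick_one {τ : ℂ} (he : 0 < e) (hκ : 0 < κ) (h : 0 < τ.re) :
    ‖Pl e κ τ - ((e * κ : ℝ) : ℂ)‖ * ‖τ + 1‖ ≤ ‖τ - 1‖ * ‖Pl e κ τ + ((e * κ : ℝ) : ℂ)‖ := by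
  have h1 := halfPlane_pick (Pl_diff he hκ) (fun z hz => Pl_re_pos he hκ hz) h
    (w := 1) (by simp)
  rwa [Pl_one he hκ, conj_ofReal, map_one] at h1

/-- Schwarz-Pick for the derivative. -/
theorem Pl_deriv {τ : ℂ} (he : 0 < e) (hκ : 0 < κ) (h : 0 < τ.re) :
    ‖deriv (Pl e κ) τ‖ * τ.re ≤ (Pl e κ τ).re :=
  halfPlane_deriv (Pl_diff he hκ) (fun z hz => Pl_re_pos he hκ hz) h

theorem Pl_pick {τ σ : ℂ} (he : 0 < e) (hκ : 0 < κ) (h : 0 < τ.re) (h' : 0 < σ.re) :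
    ‖Pl e κ τ - Pl e κ σ‖ * ‖τ + conj σ‖ ≤ ‖τ - σ‖ * ‖Pl e κ τ + conj (Pl e κ σ)‖ :=
  halfPlane_pick (Pl_diff he hκ) (fun z hz => Pl_re_pos he hκ hz) h h'

end Pool.Agent.helper12.RP
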